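import Pool.Agent.Helper17.UP.Bp

/-!
# Project DV, upper half: blocks of ratio `1/2` have positive probability

The ball of radius `t / 2` is covered by finitely many small balls, the number does not depend on the mesh; the
blocks around the small balls have probability at least `1/2` (`ZoneC`), FKG.
-/

open Finset Filter Topology RP4
open GF (Pl)

namespace DV.UP

/-- the points of the net -/
def net2 (z : Pl) (r : ℝ) (i : ℤ × ℤ) : Pl := (z.1 + i.1 * r, z.2 + i.2 * r)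

lemma net2_near {t r : ℝ} (hr : 0 < r) {n : ℤ} (hn : t / (2 * r) ≤ n) {z w : Pl} (hw : dist w z ≤ t / 2) :
    ∃ i ∈ (Finset.Icc (-n) n) ×ˢ (Finset.Icc (-n) n), dist w (net2 z r i) ≤ r := by
  rw [Prod.dist_eq, max_le_iff, Real.dist_eq, Real.dist_eq] at hw
  have key : ∀ x : ℝ, |x| ≤ t / 2 → ∃ i ∈ Finset.Icc (-n) n, |x - i * r| ≤ r := by
    intro x hx
    have h1 : |x / r| ≤ n := by
      rw [abs_div, abs_of_pos hr]
      refine le_trans ?_ hn
      rw [div_le_div_iff₀ hr (by positivity)]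
      nlinarith
    rw [abs_le] at h1
    refine ⟨⌊x / r⌋, ?_, ?_⟩
    · rw [Finset.mem_Icc]
      constructor
      · rw [Int.le_floor]
        push_cast
        exact h1.1
      · have h2 := Int.floor_le (x / r)
        have h3 : ((⌊x / r⌋ : ℤ) : ℝ) ≤ (n : ℝ) := h2.trans h1.2
        exact_mod_cast h3
    · have h2 := Int.floor_le (x / r)
      have h3 := Int.lt_floor_add_one (x / r)
      rw [le_div_iff₀ hr] at h2
      rw [div_lt_iff₀ hr] at h3
      rw [abs_le]
      constructor <;> linarith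
  obtain ⟨i, hi, hi'⟩ := key _ hw.1
  obtain ⟨j, hj, hj'⟩ := key _ hw.2
  refine ⟨(i, j), Finset.mem_product.2 ⟨hi, hj⟩, ?_⟩
  rw [Prod.dist_eq, max_le_iff, Real.dist_eq, Real.dist_eq]
  unfold net2
  simp only
  constructor
  · have e : w.1 - (z.1 + (i : ℝ) * r) = w.1 - z.1 - i * r := by ring
    rw [e]
    exact hi'
  · have e : w.2 - (z.2 + (j : ℝ) * r) = w.2 - z.2 - j * r := by ring
    rw [e]
    exact hj'

lemma net2_dist {t r : ℝ} (hr : 0 < r) {n : ℤ} (hn : (n : ℝ) * r ≤ t) {z : Pl} {i : ℤ × ℤ}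
    (hi : i ∈ (Finset.Icc (-n) n) ×ˢ (Finset.Icc (-n) n)) : dist (net2 z r i) z ≤ t := by
  rw [Finset.mem_product, Finset.mem_Icc, Finset.mem_Icc] at hi
  obtain ⟨⟨h1, h2⟩, h3, h4⟩ := hi
  have key : ∀ j : ℤ, -n ≤ j → j ≤ n → |(j : ℝ) * r| ≤ t := by
    intro j h1 h2
    have h1' : -(n : ℝ) ≤ j := by exact_mod_cast h1
    have h2' : (j : ℝ) ≤ n := by exact_mod_cast h2
    rw [abs_mul, abs_of_pos hr]
    refine le_trans (mul_le_mul_of_nonneg_right (abs_le.2 ⟨h1', h2'⟩) hr.le) hn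
  unfold net2
  rw [Prod.dist_eq, max_le_iff, Real.dist_eq, Real.dist_eq]
  simp only [add_sub_cancel_left]
  exact ⟨key _ h1 h2, key _ h3 h4⟩

/-- blocks of ratio `1/2` have positive probability in flat domains -/
theorem gdc_half (hZ : ZoneC) : GDc (1 / 2) := by
  intro L t ht
  obtain ⟨r₁, hr₁, hgd⟩ := exists_gd hZ L (s := t / 4) (by positivity)
  obtain ⟨r, hr⟩ : ∃ r, r = min r₁ (t / 8) := ⟨_, rfl⟩
  have hr0 : 0 < r := by
    rw [hr]
    exact lt_min hr₁ (by positivity)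
  have hr1 : r ≤ r₁ := by
    rw [hr]
    exact min_le_left _ _
  have hrt : r ≤ t / 8 := by
    rw [hr]
    exact min_le_right _ _
  obtain ⟨n, hn⟩ : ∃ n : ℤ, n = ⌈t / (2 * r)⌉ := ⟨_, rfl⟩
  have hn1 : t / (2 * r) ≤ n := by
    rw [hn]
    exact Int.le_ceil _
  have hn2 : (n : ℝ) * r ≤ t / 2 + r := by
    have h1 : (n : ℝ) < t / (2 * r) + 1 := by
      rw [hn]
      exact Int.ceil_lt_add_one _
    have h2 : (n : ℝ) * r ≤ (t / (2 * r) + 1) * r := mul_le_mul_of_nonneg_right h1.le hr0.le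
    have h3 : (t / (2 * r) + 1) * r = t / 2 + r := by
      field_simp
    rwa [h3] at h2
  set I : Finset (ℤ × ℤ) := (Finset.Icc (-n) n) ×ˢ (Finset.Icc (-n) n) with hI
  refine ⟨(1 / 2) ^ I.card, by positivity, ?_⟩
  filter_upwards [hgd r hr0 hr1] with δ hδ z D hD h1 h2
  have hdist : ∀ i ∈ I, dist (net2 z r i) z ≤ 5 * t / 8 := fun i hi => by
    have := net2_dist (z := z) hr0 hn2 hi
    linarith
  have h3 : (1 / 2 : ℝ) ^ I.card ≤ pr (Om D) fun g => ∀ i ∈ I, Bk 0 δ (net2 z r i) r (t / 4) g := by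
    refine pr_all I D hD (fun i => Bk 0 δ (net2 z r i) r (t / 4)) (fun i _ => bk_dec _ _ _ _) (by norm_num)
      (by norm_num) fun i hi => ?_
    refine hδ (net2 z r i) D hD (fun v hv => h1 ?_) h2
    have h4 : dist (pt δ v) (net2 z r i) ≤ t / 4 := hv
    have h5 := dist_triangle (pt δ v) (net2 z r i) z
    have h6 := hdist i hi
    show dist (pt δ v) z ≤ t
    linarith
  refine h3.trans (pr_mono fun g _ hg => ?_)
  show Sep (Inn δ z (t * (1 / 2))) (Out δ z t) (lev 0 g)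
  rintro u hu v hv hc
  -- the small ball near `u`
  obtain ⟨i, hi, hui⟩ : ∃ i ∈ I, u ∈ nb (Inn δ (net2 z r i) r) := by
    rcases hu with hu | ⟨w, hw, hwu⟩
    · obtain ⟨i, hi, h4⟩ := net2_near hr0 hn1 (w := pt δ u) (z := z) (by
        have h5 : dist (pt δ u) z ≤ t * (1 / 2) := hu
        linarith)
      exact ⟨i, hi, Or.inl h4⟩
    · obtain ⟨i, hi, h4⟩ := net2_near hr0 hn1 (w := pt δ w) (z := z) (by
        have h5 : dist (pt δ w) z ≤ t * (1 / 2) := hw
        linarith)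
      exact ⟨i, hi, Or.inr ⟨w, h4, hwu⟩⟩
  have hvi : v ∈ nb (Out δ (net2 z r i) (t / 4)) := by
    refine nb_mono (fun w hw => ?_) hv
    have h4 : t ≤ dist (pt δ w) z := hw
    have h5 := dist_triangle (pt δ w) (net2 z r i) z
    have h6 := hdist i hi
    show t / 4 ≤ dist (pt δ w) (net2 z r i)
    linarith
  have h7 : Sep (Inn δ (net2 z r i) r) (Out δ (net2 z r i) (t / 4)) (lev 0 g) := hg i hi
  exact h7 u hui v hvi hc

end DV.UP
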