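import Pool.Agent.Helper17.UP.As3
import Pool.Agent.Helper17.UP.Gc
import Pool.Agent.Helper33.DV.Lf2

/-!
# Project DV: the upper half, unconditionally
-/

open Filter Topology RP4

namespace DV.UP

/-- the upper half of the sandwich from `GDc` -/
theorem upGen_of_gdc (hd : Deloc) (hF : FlatC) (hZC : ZoneC)
    (hg : ∃ κ : ℝ, 0 < κ ∧ κ < 1 ∧ GDc κ) : UpGen hd := by
  obtain ⟨κ, hκ, hκ1, h⟩ := hg
  exact upGen_of_pos hd hF hZC hκ hκ1 (bpos_of_gdc hd hF hκ hκ1 h)

/-- the upper half of the sandwich -/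
theorem upGen (hd : Deloc) : UpGen hd :=
  upGen_of_gdc hd (flatC_all hd) zoneC_all ⟨1 / 2, by norm_num, by norm_num, gdc_half zoneC_all⟩

end DV.UP
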