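import Pool.Agent.Helper25.WB.Gl
import Pool.Agent.Helper25.WB.One
import Pool.Agent.Helper56.U5.C3b
import Pool.Agent.Helper86.WB.C
import Pool.Agent.Helper97.DV.U3

/-!
# Project DV, upper half, assembly, part 1: the weights of two far pins and blocks of a fixed ratio
-/

open Filter Topology MeasureTheory RP4
open GF (Pl Cc Tst En Kc md)
open GF.Lat (Xd)

namespace DV.UP

open DV.WD (eu)
open SW (iw)

/-- blocks of ratio `κ` have positive mass -/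
def BPos (κ : ℝ) : Prop := ∀ Z : Finset (Pl × ℝ × ℝ), Z.Nonempty →
  (∀ q ∈ Z, 0 < q.2.2 ∧ q.2.1 = q.2.2 * κ) →
  ∃ c > 0, ∀ᶠ δ in 𝓝[>] (0 : ℝ), c ≤ MR (iw (BlkF Z δ))

/-- the first pin -/
def pin₁ (L : ℝ) : Pl := (L, 3 * L)

/-- the second pin -/
def pin₂ (L : ℝ) : Pl := (2 * L, 6 * L)

lemma dist_pins {L : ℝ} (hL : 0 ≤ L) : dist (pin₁ L) (pin₂ L) = 3 * L := by
  unfold pin₁ pin₂
  rw [Prod.dist_eq, Real.dist_eq, Real.dist_eq]
  have e1 : |L - 2 * L| = L := by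
    rw [show L - 2 * L = -L by ring, abs_neg, abs_of_nonneg hL]
  have e2 : |3 * L - 6 * L| = 3 * L := by
    rw [show 3 * L - 6 * L = -(3 * L) by ring, abs_neg, abs_of_nonneg (by linarith)]
  simp only
  rw [e1, e2, max_eq_right (by linarith)]

lemma dist_pin₁ (x : Pl) {L : ℝ} : 3 * L - dist x 0 ≤ dist x (pin₁ L) := by
  have h1 : 3 * L ≤ dist (pin₁ L) 0 := by
    unfold pin₁
    rw [Prod.dist_eq]
    refine le_trans ?_ (le_max_right _ _)
    simp only [Prod.snd_zero, Real.dist_eq, sub_zero]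
    exact le_abs_self _
  have h2 := dist_triangle_left (pin₁ L) 0 x
  linarith [dist_comm x (pin₁ L)]

lemma dist_pin₂ (x : Pl) {L : ℝ} (hL : 0 ≤ L) : 3 * L - dist x 0 ≤ dist x (pin₂ L) := by
  have h1 : 3 * L ≤ dist (pin₂ L) 0 := by
    unfold pin₂
    rw [Prod.dist_eq]
    refine le_trans ?_ (le_max_right _ _)
    simp only [Prod.snd_zero, Real.dist_eq, sub_zero]
    have := le_abs_self (6 * L)
    linarith
  have h2 := dist_triangle_left (pin₂ L) 0 x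
  linarith [dist_comm x (pin₂ L)]

lemma LL_one (z : Pl) : LL 1 z = z.1 + z.2 := by
  simp [LL, dd, GF.ell, GF.Lat.dr]

lemma LL_three (z : Pl) : LL 3 z = -z.1 + z.2 := by
  simp [LL, dd, GF.ell, GF.Lat.dr]

lemma LL_orig (i : Fin 6) : LL i (0 : Pl) = 0 := by
  simp [LL, GF.ell]

lemma LL_pin₁ {L : ℝ} (hL : 0 ≤ L) (i : Fin 6) : L ≤ |LL i (pin₁ L)| := by
  unfold pin₁
  rw [le_abs]
  fin_cases i
  · left; rw [show ((⟨0, by norm_num⟩ : Fin 6)) = 0 from rfl, LL_zero]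
  · left; rw [show ((⟨1, by norm_num⟩ : Fin 6)) = 1 from rfl, LL_one]; simp only; linarith
  · left; rw [show ((⟨2, by norm_num⟩ : Fin 6)) = 2 from rfl, LL_two]; simp only; linarith
  · left; rw [show ((⟨3, by norm_num⟩ : Fin 6)) = 3 from rfl, LL_three]; simp only; linarith
  · right; rw [show ((⟨4, by norm_num⟩ : Fin 6)) = 4 from rfl, LL_four]; simp only; linarith
  · right; rw [show ((⟨5, by norm_num⟩ : Fin 6)) = 5 from rfl, LL_five]; simp only; linarith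

lemma LL_pin₂ {L : ℝ} (hL : 0 ≤ L) (i : Fin 6) : L ≤ |LL i (pin₂ L)| := by
  unfold pin₂
  rw [le_abs]
  fin_cases i
  · left; rw [show ((⟨0, by norm_num⟩ : Fin 6)) = 0 from rfl, LL_zero]; simp only; linarith
  · left; rw [show ((⟨1, by norm_num⟩ : Fin 6)) = 1 from rfl, LL_one]; simp only; linarith
  · left; rw [show ((⟨2, by norm_num⟩ : Fin 6)) = 2 from rfl, LL_two]; simp only; linarith
  · left; rw [show ((⟨3, by norm_num⟩ : Fin 6)) = 3 from rfl, LL_three]; simp only; linarith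
  · right; rw [show ((⟨4, by norm_num⟩ : Fin 6)) = 4 from rfl, LL_four]; simp only; linarith
  · right; rw [show ((⟨5, by norm_num⟩ : Fin 6)) = 5 from rfl, LL_five]; simp only; linarith

lemma LL_far {L M : ℝ} {y x : Pl} {i : Fin 6} (h : L ≤ |LL i y|) (hx : dist x 0 ≤ M) :
    L - 2 * M ≤ |LL i y - LL i x| := by
  have h1 := LL_lip i x 0
  rw [LL_orig, sub_zero] at h1
  have h2 := abs_sub_abs_le_abs_sub (LL i y) (LL i x)
  linarith

/-- the blocks around the points of `P` -/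
noncomputable def ZP (κ t : ℝ) (P : Finset Pl) : Finset (Pl × ℝ × ℝ) := by
  classical exact P.image fun p => (p, t * κ, t)

lemma mem_ZP {κ t : ℝ} {P : Finset Pl} {q : Pl × ℝ × ℝ} :
    q ∈ ZP κ t P ↔ ∃ p ∈ P, (p, t * κ, t) = q := by
  classical
  unfold ZP
  rw [Finset.mem_image]

lemma ZP_single (κ t : ℝ) (p : Pl) : ZP κ t {p} = {(p, t * κ, t)} := by
  classical
  unfold ZP
  rw [Finset.image_singleton]

lemma card_ZP (κ t : ℝ) (P : Finset Pl) : ((ZP κ t P).card : ℝ) ≤ P.card := by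
  classical
  unfold ZP
  exact_mod_cast Finset.card_image_le

/-- the weight of the pins and the blocks around the points of `P` -/
noncomputable def EW (κ L s t : ℝ) (P : Finset Pl) (δ : ℝ) : (V → ℤ) → ℝ :=
  iw (WE (pin₁ L) (pin₂ L) (s * κ) s (ZP κ t P) δ)

/-- the conditions on the parameters -/
structure Prm (κ M L s t : ℝ) (P : Finset Pl) : Prop where
  κ0 : 0 < κ
  κ1 : κ < 1
  M0 : 0 ≤ M
  hL : 2 * M + 10 ≤ L
  s0 : 0 < s
  s1 : s ≤ 1
  t0 : 0 < t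
  t1 : t ≤ 1
  hP : ∀ p ∈ P, dist p 0 ≤ M

variable {κ M L s t : ℝ} {P : Finset Pl}

lemma Prm.L0 (h : Prm κ M L s t P) : 0 ≤ L := by
  have := h.M0
  have := h.hL
  linarith

lemma Prm.rs (h : Prm κ M L s t P) : s * κ < s := by
  have := h.s0
  have := h.κ1
  nlinarith

lemma Prm.r0 (h : Prm κ M L s t P) : 0 < s * κ := mul_pos h.s0 h.κ0

lemma Prm.pins (h : Prm κ M L s t P) : 2 * s < dist (pin₁ L) (pin₂ L) := by
  rw [dist_pins h.L0]
  have := h.s1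
  have := h.hL
  have := h.M0
  linarith

lemma Prm.far₁ (h : Prm κ M L s t P) {x : Pl} (hx : dist x 0 ≤ M) : 10 ≤ dist x (pin₁ L) := by
  have h1 := dist_pin₁ x (L := L)
  have := h.hL
  have := h.M0
  linarith

lemma Prm.far₂ (h : Prm κ M L s t P) {x : Pl} (hx : dist x 0 ≤ M) : 10 ≤ dist x (pin₂ L) := by
  have h1 := dist_pin₂ x h.L0
  have := h.hL
  have := h.M0
  linarith

lemma Prm.hZ (h : Prm κ M L s t P) : ∀ z ∈ ZP κ t P, z.2.1 < z.2.2 := by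
  intro z hz
  obtain ⟨p, -, rfl⟩ := mem_ZP.1 hz
  have := h.t0
  have := h.κ1
  show t * κ < t
  nlinarith

lemma Prm.hoff (h : Prm κ M L s t P) :
    ∀ z ∈ ZP κ t P, s + z.2.2 ≤ dist z.1 (pin₁ L) ∧ s + z.2.2 ≤ dist z.1 (pin₂ L) := by
  intro z hz
  obtain ⟨p, hp, rfl⟩ := mem_ZP.1 hz
  have h1 := h.far₁ (h.hP p hp)
  have h2 := h.far₂ (h.hP p hp)
  have := h.s1
  have := h.t1
  show s + t ≤ dist p (pin₁ L) ∧ s + t ≤ dist p (pin₂ L)
  constructor <;> linarith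

lemma Prm.low (h : Prm κ M L s t P) (hb : BPos κ) :
    ∃ c > 0, ∀ᶠ δ in 𝓝[>] (0 : ℝ), c ≤ MR (EW κ L s t P δ) := by
  classical
  obtain ⟨c, hc, h1⟩ := hb (famZ (pin₁ L) (pin₂ L) (s * κ) s (ZP κ t P)) ⟨(pin₁ L, s * κ, s), by
    unfold famZ
    exact Finset.mem_insert_self _ _⟩ (by
    intro q hq
    unfold famZ at hq
    rw [Finset.mem_insert, Finset.mem_insert] at hq
    rcases hq with rfl | rfl | hq
    · exact ⟨h.s0, rfl⟩
    · exact ⟨h.s0, rfl⟩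
    · obtain ⟨p, hp, rfl⟩ := mem_ZP.1 hq
      exact ⟨h.t0, rfl⟩)
  refine ⟨c, hc, ?_⟩
  filter_upwards [h1] with δ h2
  unfold EW
  rwa [WE_eq]

lemma Prm.pos (h : Prm κ M L s t P) (hb : BPos κ) : ∀ᶠ δ in 𝓝[>] (0 : ℝ), 0 < MR (EW κ L s t P δ) := by
  obtain ⟨c, hc, h1⟩ := h.low hb
  exact h1.mono fun δ h2 => hc.trans_le h2

/-- environment data -/
lemma Prm.env (h : Prm κ M L s t P) (hb : BPos κ) (hd : Deloc) (hF : FlatC) (hZC : ZoneC) {l : Filter ℝ}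
    (hl : l ≤ 𝓝[>] 0) {W : Set Pl} {r₀ : ℝ} (hr₀ : 0 < r₀) (hr₁ : r₀ ≤ 1)
    (hc : ((P.card : ℝ) + 3) * (2 * t) < r₀) (hW : ∀ x ∈ W, dist x 0 ≤ M ∧ ∀ p ∈ P, 9 * r₀ ≤ dist x p) :
    EnvDat l W (Kc hd) (EW κ L s t P) := by
  obtain ⟨c, hc0, h1⟩ := h.low hb
  refine envDat_WE hd hF hZC hl h.r0 h.rs h.pins h.hZ h.hoff hc0 (hl h1) fun x hx => ?_
  obtain ⟨hx0, hxp⟩ := hW x hx
  refine ⟨r₀, hr₀, t, h.t0.le, ?_, ?_, fun i => ?_⟩
  · refine lt_of_le_of_lt ?_ hc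
    have h2 := card_ZP κ t P
    have := h.t0
    exact mul_le_mul_of_nonneg_right (by linarith) (by linarith)
  · intro z hz
    obtain ⟨p, hp, rfl⟩ := mem_ZP.1 hz
    exact ⟨hxp p hp, le_rfl⟩
  · have h2 := LL_far (LL_pin₁ h.L0 i) hx0
    have h3 := LL_far (LL_pin₂ h.L0 i) hx0
    have := h.hL
    have := h.s1
    constructor <;> linarith

/-- comparison of two weights: fewer points, smaller blocks -/
lemma Prm.cmp {s' t' : ℝ} {P' : Finset Pl} (h : Prm κ M L s t P) (h' : Prm κ M L s' t' P') (hb : BPos κ)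
    (hd : Deloc) {l : Filter ℝ} (hl : l ≤ 𝓝[>] 0) (hPP : P' ⊆ P) (hss : s' ≤ s * κ) (htt : t' ≤ t * κ)
    {f η : Pl → ℝ} (hf : Cc f) (hη : Cc η) (hf0 : ∀ z, 0 ≤ f z) (hη0 : ∀ z, 0 ≤ η z)
    (hfM : ∀ z ∈ tsupport f, dist z 0 ≤ M) (hηM : ∀ z ∈ tsupport η, dist z 0 ≤ M)
    (hfP : ∀ p ∈ P, ∀ z ∈ tsupport f, t < dist z p) (hηP : ∀ p ∈ P, ∀ z ∈ tsupport η, t < dist z p) :
    ∀ᶠ δ in l, qt (EW κ L s t P) (fun δ h => Xd δ f h * Xd δ η h) δ ≤
      qt (EW κ L s' t' P') (fun δ h => Xd δ f h * Xd δ η h) δ := by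
  obtain ⟨T, hT, eT⟩ := WB.WE_eq_EB (pin₁ L) (pin₂ L) (s * κ) s (ZP κ t P)
  obtain ⟨T', hT', eT'⟩ := WB.WE_eq_EB (pin₁ L) (pin₂ L) (s' * κ) s' (ZP κ t' P')
  have e1 : EW κ L s t P = fun δ => iw (WB.EB T δ) := by
    funext δ
    unfold EW
    rw [eT]
  have e2 : EW κ L s' t' P' = fun δ => iw (WB.EB T' δ) := by
    funext δ
    unfold EW
    rw [eT']
  have p1 := (pn_WE h.r0 h.rs h.hZ (y₁ := pin₁ L) (y₂ := pin₂ L)).filter_mono hl
  have p2 := (pn_WE h'.r0 h'.rs h'.hZ (y₁ := pin₁ L) (y₂ := pin₂ L)).filter_mono hl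
  have p3 := hl (h.pos hb)
  have p4 := hl (h'.pos hb)
  simp only [eT] at p1
  simp only [eT'] at p2
  simp only [e1] at p3
  simp only [e2] at p4
  rw [e1, e2]
  have key : ∀ q ∈ T, ∀ z : Pl, dist z 0 ≤ M → (∀ p ∈ P, t < dist z p) → q.2.2 < dist z q.1 := by
    intro q hq z hz hzp
    have := h.s1
    rcases (hT q).1 hq with rfl | rfl | hq
    · have := h.far₁ hz
      show s < dist z (pin₁ L)
      linarith
    · have := h.far₂ hz
      show s < dist z (pin₂ L)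
      linarith
    · obtain ⟨p, hp, rfl⟩ := mem_ZP.1 hq
      exact hzp p hp
  refine WB.ev_qt_le_two hd hl p1 p3 p2 p4 ?_ ?_ ?_ hf hη hf0 hη0
    (fun q hq z hz => key q hq z (hfM z hz) fun p hp => hfP p hp z hz)
    (fun q hq z hz => key q hq z (hηM z hz) fun p hp => hηP p hp z hz)
  · intro q' hq'
    rcases (hT' q').1 hq' with rfl | rfl | hq'
    · exact ⟨(pin₁ L, s * κ, s), (hT _).2 (Or.inl rfl), rfl, hss⟩
    · exact ⟨(pin₂ L, s * κ, s), (hT _).2 (Or.inr (Or.inl rfl)), rfl, hss⟩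
    · obtain ⟨p, hp, rfl⟩ := mem_ZP.1 hq'
      exact ⟨(p, t * κ, t), (hT _).2 (Or.inr (Or.inr (mem_ZP.2 ⟨p, hPP hp, rfl⟩))), rfl, htt⟩
  · intro q hq
    rcases (hT q).1 hq with rfl | rfl | hq
    · exact h.rs
    · exact h.rs
    · exact h.hZ q hq
  · intro q hq
    rcases (hT' q).1 hq with rfl | rfl | hq
    · exact h'.rs
    · exact h'.rs
    · exact h'.hZ q hq

end DV.UP
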