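import Pool.Agent.Helper17.UP.As1

/-!
# Project DV, upper half, assembly, part 2: moments and covariances for the weights `EW`
-/

open Filter Topology MeasureTheory RP4
open GF (Pl Cc Tst En Kc md)
open GF.Lat (Xd)

namespace DV.UP

open DV.WD (eu)
open SW (iw)

variable {κ M L s t : ℝ} {P : Finset Pl}

lemma small_ev' {r : ℝ} (hr : 0 < r) : ∀ᶠ δ in 𝓝[>] (0 : ℝ), 0 < δ ∧ δ < r := by
  have h1 : ∀ᶠ δ in 𝓝[>] (0 : ℝ), 0 < δ := self_mem_nhdsWithin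
  have h2 : ∀ᶠ δ in 𝓝[>] (0 : ℝ), δ < r := nhdsWithin_le_nhds (Iio_mem_nhds hr)
  filter_upwards [h1, h2] with δ a b using ⟨a, b⟩

/-- moments: one constant for all families of blocks -/
lemma mom_EW (hd : Deloc) (hF : FlatC) (hZC : ZoneC) (hb : BPos κ) (h₀ : Prm κ M L s 1 ∅) {f : Pl → ℝ}
    (hf : Cc f) (n : ℕ) : ∃ C > 0, ∀ (t : ℝ) (P : Finset Pl), Prm κ M L s t P →
      ∀ l : Filter ℝ, l ≤ 𝓝[>] 0 →
      ∀ᶠ δ in l, qt (EW κ L s t P) (fun δ g => Xd δ f g ^ (2 * n)) δ ≤ C := by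
  obtain ⟨C, hC, h1⟩ := u5_far hd hF hZC h₀.r0 h₀.rs h₀.pins hf n
  exact ⟨C, hC, fun t P h l hl => h1 (ZP κ t P) h.hZ h.hoff l hl (hl (h.pos hb))⟩

/-- (A) -/
lemma md_EW (hd : Deloc) {f : Pl → ℝ} (hf : Cc f) (hf0 : ∀ z, 0 ≤ f z) (n : ℕ) (R₀ : ℝ) :
    ∃ C : ℝ, 0 ≤ C ∧ ∀ D : ℝ → Finset V,
      (∀ᶠ δ in 𝓝[>] (0 : ℝ), BdryPar (D δ) 0 ∧ ∀ x ∈ D δ, ‖pt δ x‖ ≤ R₀) →
      ∀ l : Filter ℝ, l ≤ 𝓝[>] 0 → ∀ (κ M L s t : ℝ) (P : Finset Pl) (R' θ η : ℝ),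
      Prm κ M L s t P → BPos κ → R₀ ≤ M → t < R' → (∀ᶠ δ in l, ∀ x, mass δ f x ≠ 0 → x ∈ D δ) →
      (∀ p ∈ P, ∀ z ∈ tsupport f, R' < dist z p) →
      (∀ᶠ δ in l, ∑ p ∈ P, pr (Om (D δ)) (fun g => ¬ Bk 0 δ p t R' g) ≤ θ) → 0 < η →
      ∀ᶠ δ in l, md D f n δ ≤
        qt (EW κ L s t P) (fun δ h => Xd δ f h ^ (2 * n)) δ + (C * √θ + η) := by
  obtain ⟨C, hC, h1⟩ := WB.md_le_EB hd hf hf0 n R₀
  refine ⟨C, hC, fun D hD l hl κ M L s t P R' θ η h hb hRM ht hfD hfP hθ hη => ?_⟩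
  obtain ⟨T, hT, eT⟩ := WB.WE_eq_EB (pin₁ L) (pin₂ L) (s * κ) s (ZP κ t P)
  have e1 : EW κ L s t P = fun δ => iw (WB.EB T δ) := by
    funext δ
    unfold EW
    rw [eT]
  have p1 := (pn_WE h.r0 h.rs h.hZ (y₁ := pin₁ L) (y₂ := pin₂ L)).filter_mono hl
  have p3 := hl (h.pos hb)
  simp only [eT] at p1
  simp only [e1] at p3
  rw [e1]
  have hD' := hl hD
  have hin : ∀ᶠ δ in l, ∀ x ∈ D δ, dist (pt δ x) 0 ≤ M := by
    filter_upwards [hD'] with δ h2 x hx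
    rw [dist_zero_right]
    exact (h2.2 x hx).trans hRM
  refine h1 D hD l hl T P t R' θ η p1 p3 ?_ ht hfD hfP ?_ hθ hη
  · intro q hq
    rcases (hT q).1 hq with rfl | rfl | hq
    · exact h.rs
    · exact h.rs
    · exact h.hZ q hq
  · intro q hq
    have := h.s1
    rcases (hT q).1 hq with rfl | rfl | hq
    · right
      filter_upwards [hin] with δ h2 x hx
      have := h.far₁ (h2 x hx)
      show s ≤ dist (pt δ x) (pin₁ L)
      linarith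
    · right
      filter_upwards [hin] with δ h2 x hx
      have := h.far₂ (h2 x hx)
      show s ≤ dist (pt δ x) (pin₂ L)
      linarith
    · obtain ⟨p, hp, rfl⟩ := mem_ZP.1 hq
      exact Or.inl ⟨hp, le_rfl⟩

/-- near one block the covariance with `f` is small -/
lemma near_EW (hd : Deloc) (hF : FlatC) (hZC : ZoneC) (hb : BPos κ) (h₀ : Prm κ M L s 1 ∅) {K : Set Pl}
    (hK : IsCompact K) {R : ℝ} (hR : 0 < R) (hKM : ∀ z ∈ K, dist z 0 + R ≤ M) {f : Pl → ℝ} (hf : Cc f)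
    (hfK : ∀ z ∈ K, ∀ x, f x ≠ 0 → 2 * R ≤ dist x z) {e : ℝ} (he : 0 < e) :
    ∃ ρ₀ > 0, ∀ t, 0 < t → t ≤ 1 → 200 * t ≤ ρ₀ → ∀ p ∈ K, ∀ l : Filter ℝ, l ≤ 𝓝[>] 0 →
      ∀ η : Pl → ℝ, Cc η → (∀ z, 0 ≤ η z ∧ η z ≤ 1) →
      (∀ z, η z ≠ 0 → 200 * t < eu z p ∧ eu z p < 8 * (200 * t)) →
      ∀ᶠ δ in l, qt (EW κ L s t {p}) (fun δ g => Xd δ f g * Xd δ η g) δ ≤ e * (200 * t) ^ 2 := by
  obtain ⟨C, hC, hnear⟩ := u5_near hd hF hZC (κ := κ) (A := 1600) (η := 1) h₀.κ0 h₀.κ1 one_pos 2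
  have hM0 := h₀.M0
  have hLM := h₀.hL
  have hs1 := h₀.s1
  obtain ⟨ρ₀, hρ₀, hone⟩ := WB.one_small hd hF hZC h₀.r0 h₀.rs h₀.pins hK hR (fun z hz => by
    have h1 := dist_pin₁ z (L := L)
    have h2 := hKM z hz
    have h3 : 0 ≤ dist z 0 := dist_nonneg
    linarith) hf hfK hC.le he
  refine ⟨ρ₀, hρ₀, fun t ht ht1 htρ p hp l hl η hη hη1 hηs => ?_⟩
  have hP : Prm κ M L s t {p} := ⟨h₀.κ0, h₀.κ1, hM0, hLM, h₀.s0, hs1, ht, ht1, fun q hq => by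
    rw [Finset.mem_singleton.1 hq]
    linarith [hKM p hp]⟩
  have hpos := hl (hP.pos hb)
  have hoff := hP.hoff
  have hZ := hP.hZ
  have eEW : EW κ L s t {p} = fun δ => iw (WE (pin₁ L) (pin₂ L) (s * κ) s {(p, t * κ, t)} δ) := by
    funext δ
    unfold EW
    rw [ZP_single]
  rw [ZP_single] at hoff hZ
  rw [eEW] at hpos ⊢
  have hoff' := hoff (p, t * κ, t) (Finset.mem_singleton_self _)
  have h1 := hnear (pin₁ L) (pin₂ L) p (s * κ) s t h₀.r0 h₀.rs ht hoff'.1 hoff'.2 l hl hpos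
  have h2 := hl (hone (200 * t) (by positivity) htρ)
  have h3 := hl (ev_all hZ)
  filter_upwards [h1, h2, h3, hpos] with δ h1 h2 h3 h4
  have hηd : ∀ z, η z ≠ 0 → t * (1 + 1) ≤ dist z p ∧ dist z p ≤ t * 1600 := by
    intro z hz
    obtain ⟨a1, a2⟩ := hηs z hz
    have a3 := WD.eu_le_two (x := z) (y := p)
    have a4 := WD.dist_le_eu z p
    constructor <;> linarith
  have h5 := h1 η hη hη1 hηd
  refine h2 p hp {(p, t * κ, t)} h3 hoff h4 η hη (fun z hz => ?_) ?_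
  · exact lt_of_le_of_lt (WD.dist_le_eu z p) (hηs z hz).2
  · refine le_trans h5 ?_
    have h6 : t ^ (4 * 2) ≤ (200 * t) ^ 8 := by
      have : (4 * 2 : ℕ) = 8 := rfl
      rw [this]
      exact pow_le_pow_left₀ ht.le (by linarith) 8
    exact mul_le_mul_of_nonneg_left h6 hC.le

/-- a bound for the covariances with `f` in a bounded region -/
lemma bound_cov (hd : Deloc) {U₀ : Ultrafilter ℝ} (hU₀ : (U₀ : Filter ℝ) ≤ 𝓝[>] 0) {E : ℝ → (V → ℤ) → ℝ}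
    (h : WDat (U₀ : Filter ℝ) E) {f : Pl → ℝ} (hf : Cc f) (hf0 : ∀ z, 0 ≤ f z) (M : ℝ) :
    ∃ S : ℝ, 0 ≤ S ∧ ∀ η, Cc η → (∀ z, 0 ≤ η z ∧ η z ≤ 1) → (∀ z, η z ≠ 0 → dist z 0 ≤ M) →
      ∀ᶠ δ in (U₀ : Filter ℝ), qt E (fun δ h => Xd δ f h * Xd δ η h) δ ≤ S := by
  classical
  have := curry_neBot (U₀ : Filter ℝ)
  set U : Ultrafilter (ℝ × Finset V) := Ultrafilter.of ((U₀ : Filter ℝ).curry dom) with hUdef
  have hU : (U : Filter (ℝ × Finset V)) ≤ (U₀ : Filter ℝ).curry dom := Ultrafilter.of_le _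
  have hT := WB.TT_pf hd hU₀ h U hU hf hf0
  set T := WB.TT hd h U hU f with hTdef
  obtain ⟨χ, hχ, hχ1, -, W, -, hW, hχW⟩ := GF.exists_cutoff (Metric.closedBall (0 : Pl) M) Set.univ
    (isCompact_closedBall _ _) isOpen_univ (Set.subset_univ _)
  have hTχ : 0 ≤ T χ := hT.pos χ hχ fun z => (hχ1 z).1
  refine ⟨T χ + 1, by linarith, fun η hη hη1 hηM => ?_⟩
  have h1 : T χ = T η + T (fun z => χ z + -1 * η z) := by
    have hη' : Cc (fun z => -1 * η z) := ⟨contDiff_const.mul hη.smooth, hη.supp.mul_left⟩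
    have hs : Cc (fun z => χ z + -1 * η z) := ⟨hχ.smooth.add hη'.smooth, hχ.supp.add hη'.supp⟩
    rw [← hT.add η _ hη hs]
    congr 1
    funext z
    ring
  have h2 : 0 ≤ T (fun z => χ z + -1 * η z) := by
    have hη' : Cc (fun z => -1 * η z) := ⟨contDiff_const.mul hη.smooth, hη.supp.mul_left⟩
    refine hT.pos _ ⟨hχ.smooth.add hη'.smooth, hχ.supp.add hη'.supp⟩ fun z => ?_
    by_cases hz : η z = 0
    · rw [hz]
      linarith [(hχ1 z).1]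
    · have h3 := hχW z (hW (Metric.mem_closedBall.2 (hηM z hz)))
      rw [h3]
      linarith [(hη1 z).2]
  have h3 := WB.TT_lim hd hU₀ h U hU hf hη
  have h4 := h3.eventually (gt_mem_nhds (show WB.TT hd h U hU f η < T χ + 1 by
    rw [← hTdef]
    linarith))
  exact h4.mono fun δ h5 => h5.le

/-- the sites in the lattice support are in the domain -/
lemma mass_dom {Ω : Set Pl} (hΩ : IsOpen Ω) {D : ℝ → Finset V}
    (hin : ∀ Q, IsCompact Q → Q ⊆ Ω → ∀ᶠ δ in 𝓝[>] (0 : ℝ), ∀ x, pt δ x ∈ Q → x ∈ D δ) {f : Pl → ℝ}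
    (hf : Tst Ω f) : ∀ᶠ δ in 𝓝[>] (0 : ℝ), ∀ x, mass δ f x ≠ 0 → x ∈ D δ := by
  have hK : IsCompact (tsupport f) := hf.supp
  obtain ⟨ε, hε, hsub⟩ := hK.exists_cthickening_subset_open hΩ hf.sub
  filter_upwards [hin _ (hK.cthickening (r := ε)) hsub, small_ev' hε] with δ h1 h2 x hx
  obtain ⟨y, hy, hxy⟩ := WB.mass_cell h2.1 hx
  refine h1 x (Metric.mem_cthickening_of_dist_le _ y ε _ (subset_tsupport f hy) ?_)
  linarith [h2.2]

/-- between a point of `Ω` and a point outside there is a point of the frontier -/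
lemma cross {Ω : Set Pl} (hΩ : IsOpen Ω) {x p : Pl} (hx : x ∈ Ω) (hp : p ∉ Ω) : ∃ z ∈ frontier Ω, eu x z ≤ eu x p := by
  obtain ⟨z, hz, hzf⟩ : ∃ z ∈ segment ℝ x p, z ∈ frontier Ω := by
    by_contra hcon
    push Not at hcon
    have hfr : ∀ z, z ∈ closure Ω → z ∉ Ω → z ∈ frontier Ω := fun z h1 h2 =>
      ⟨h1, fun h3 => h2 (interior_subset h3)⟩
    have hpc : p ∉ closure Ω := fun h1 => hcon p (right_mem_segment ℝ x p) (hfr p h1 hp)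
    obtain ⟨z, -, h1, h2⟩ := (convex_segment x p).isPreconnected Ω (closure Ω)ᶜ hΩ
      isClosed_closure.isOpen_compl (fun z hz => by
        by_cases h1 : z ∈ Ω
        · exact Or.inl h1
        · exact Or.inr fun h2 => hcon z hz (hfr z h2 h1))
      ⟨x, left_mem_segment ℝ x p, hx⟩ ⟨p, right_mem_segment ℝ x p, hpc⟩
    exact h2 (subset_closure h1)
  refine ⟨z, hzf, ?_⟩
  obtain ⟨a, b, ha, hb, hab, rfl⟩ := hz
  unfold eu
  refine Real.sqrt_le_sqrt ?_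
  simp only [Prod.fst_add, Prod.snd_add, Prod.smul_fst, Prod.smul_snd, smul_eq_mul]
  have e1 : x.1 - (a * x.1 + b * p.1) = b * (x.1 - p.1) := by
    have : a = 1 - b := by linarith
    rw [this]
    ring
  have e2 : x.2 - (a * x.2 + b * p.2) = b * (x.2 - p.2) := by
    have : a = 1 - b := by linarith
    rw [this]
    ring
  rw [e1, e2]
  have hb1 : b ^ 2 ≤ 1 := by
    have : b ≤ 1 := by linarith
    exact pow_le_one₀ hb this
  nlinarith [sq_nonneg (x.1 - p.1), sq_nonneg (x.2 - p.2)]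

end DV.UP
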