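import Mathlib

/-!
# Project DV, upper half: choice of the parameters

`τ = 3 R e^(-n)`, at most `C n ^ 3` points, radii `r = c τ / (J + 3)`, `ρ = c' r`.
-/

open Filter Topology Real

namespace DV.UP

/-- the number of points is negligible on the logarithmic scale -/
lemma log_ratio {C c : ℝ} (hc : 0 < c) :
    Tendsto (fun n : ℕ => Real.log ((|C| * (n : ℝ) ^ 3 + 3) / c) / n) atTop (𝓝 0) := by
  have h1 : ∀ᶠ n : ℕ in atTop, Real.log ((|C| * (n : ℝ) ^ 3 + 3) / c) / n ≤
      (Real.log ((|C| + 3) / c) + 3 * Real.log n) / n := by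
    filter_upwards [eventually_ge_atTop 1] with n hn
    have hn1 : (1 : ℝ) ≤ n := by exact_mod_cast hn
    have hn0 : (0 : ℝ) < n := by linarith
    refine div_le_div_of_nonneg_right ?_ hn0.le
    have h3 : (1 : ℝ) ≤ (n : ℝ) ^ 3 := one_le_pow₀ hn1
    have h2 : (|C| * (n : ℝ) ^ 3 + 3) / c ≤ (|C| + 3) / c * (n : ℝ) ^ 3 := by
      rw [div_mul_eq_mul_div]
      refine div_le_div_of_nonneg_right ?_ hc.le
      nlinarith [abs_nonneg C]
    have h4 : 0 < (|C| * (n : ℝ) ^ 3 + 3) / c := by positivity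
    calc Real.log ((|C| * (n : ℝ) ^ 3 + 3) / c) ≤ Real.log ((|C| + 3) / c * (n : ℝ) ^ 3) :=
          Real.log_le_log h4 h2
      _ = Real.log ((|C| + 3) / c) + 3 * Real.log n := by
          rw [Real.log_mul (by positivity) (by positivity), Real.log_pow]
          push_cast
          ring
  have h2 : ∀ᶠ n : ℕ in atTop, Real.log (3 / c) / n ≤
      Real.log ((|C| * (n : ℝ) ^ 3 + 3) / c) / n := by
    filter_upwards [eventually_ge_atTop 1] with n hn
    have hn0 : (0 : ℝ) < n := by exact_mod_cast hn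
    refine div_le_div_of_nonneg_right (Real.log_le_log (by positivity) ?_) hn0.le
    refine div_le_div_of_nonneg_right ?_ hc.le
    have : 0 ≤ |C| * (n : ℝ) ^ 3 := by positivity
    linarith
  have h3 : Tendsto (fun n : ℕ => Real.log n / n) atTop (𝓝 0) := by
    have h4 := Real.isLittleO_log_id_atTop.tendsto_div_nhds_zero.comp
      (tendsto_natCast_atTop_atTop (R := ℝ))
    exact h4
  have h4 : ∀ a : ℝ, Tendsto (fun n : ℕ => a / (n : ℝ)) atTop (𝓝 0) := fun a =>
    tendsto_const_div_atTop_nhds_zero_nat a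
  refine tendsto_of_tendsto_of_tendsto_of_le_of_le' (h4 _) ?_ h2 h1
  have h5 := (h4 (Real.log ((|C| + 3) / c))).add (h3.const_mul 3)
  rw [mul_zero, add_zero] at h5
  refine h5.congr fun n => ?_
  ring

/-- the logarithmic ratio -/
lemma ratio_small {C c R ε : ℝ} (hc : 0 < c) (hR : 0 < R) (hε : 0 < ε) :
    ∀ᶠ n : ℕ in atTop, ∀ J : ℝ, 0 ≤ J → J ≤ C * (n : ℝ) ^ 3 →
      Real.log (3 * R * Real.exp (-n) / (c * (3 * R * Real.exp (-n) / (J + 3)))) /
        Real.log (R / (c * (3 * R * Real.exp (-n) / (J + 3)))) ≤ ε := by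
  have h1 := (log_ratio (C := C) hc).eventually (gt_mem_nhds (show 0 < ε / 2 by linarith))
  have h2 := (log_ratio (C := C) hc).eventually (gt_mem_nhds (show (0 : ℝ) < 1 / 4 by norm_num))
  have h3 : ∀ᶠ n : ℕ in atTop, 4 * |Real.log (1 / c)| + 4 ≤ (n : ℝ) :=
    tendsto_natCast_atTop_atTop.eventually_ge_atTop _
  filter_upwards [h1, h2, h3] with n h1 h2 h3 J hJ0 hJ
  have hn0 : (0 : ℝ) < n := by linarith [abs_nonneg (Real.log (1 / c))]
  have he : 0 < Real.exp (-(n : ℝ)) := Real.exp_pos _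
  have e1 : 3 * R * Real.exp (-n) / (c * (3 * R * Real.exp (-n) / (J + 3))) = (J + 3) / c := by
    field_simp
  have e2 : R / (c * (3 * R * Real.exp (-n) / (J + 3))) = (J + 3) / (3 * c) * Real.exp n := by
    rw [Real.exp_neg]
    field_simp
  rw [e1, e2, Real.log_mul (by positivity) (Real.exp_pos _).ne', Real.log_exp]
  have hJC : J ≤ |C| * (n : ℝ) ^ 3 := hJ.trans (mul_le_mul_of_nonneg_right (le_abs_self C) (by positivity))
  have h4 : Real.log ((J + 3) / c) ≤ Real.log ((|C| * (n : ℝ) ^ 3 + 3) / c) :=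
    Real.log_le_log (by positivity) (div_le_div_of_nonneg_right (by linarith) hc.le)
  rw [div_lt_iff₀ hn0] at h1
  have h5 : Real.log (1 / c) ≤ Real.log ((J + 3) / (3 * c)) := by
    refine Real.log_le_log (by positivity) ?_
    rw [div_le_div_iff₀ hc (by positivity)]
    nlinarith
  have h6 : -|Real.log (1 / c)| ≤ Real.log (1 / c) := neg_abs_le _
  have h7 : (n : ℝ) / 2 ≤ Real.log ((J + 3) / (3 * c)) + n := by linarith
  rw [div_le_iff₀ (by linarith)]
  nlinarith

/-- **the parameters** -/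
theorem params {C c R R' ε a A : ℝ} (hc : 0 < c) (hR : 0 < R) (hR' : 0 < R') (hε : 0 < ε) (ha : 0 < a)
    (hA : 0 ≤ A) : ∀ᶠ n : ℕ in atTop, ∀ J : ℝ, 0 ≤ J → J ≤ C * (n : ℝ) ^ 3 →
      A * J * ((c * (3 * R * Real.exp (-n) / (J + 3))) / R') ^ a ≤ ε ∧
      c * (3 * R * Real.exp (-n) / (J + 3)) ≤ ε ∧ 3 * R * Real.exp (-n) ≤ ε := by
  have h0 : Tendsto (fun n : ℕ => Real.exp (-(n : ℝ))) atTop (𝓝 0) :=
    Real.tendsto_exp_neg_atTop_nhds_zero.comp tendsto_natCast_atTop_atTop
  have h1 : ∀ᶠ n : ℕ in atTop, 3 * R * Real.exp (-(n : ℝ)) < ε := by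
    have h := h0.const_mul (3 * R)
    rw [mul_zero] at h
    exact h.eventually (gt_mem_nhds hε)
  have h2 : ∀ᶠ n : ℕ in atTop, c * (3 * R * Real.exp (-(n : ℝ))) < ε := by
    have h := (h0.const_mul (3 * R)).const_mul c
    rw [mul_zero, mul_zero] at h
    exact h.eventually (gt_mem_nhds hε)
  -- polynomial times exponential
  have h3 : Tendsto (fun n : ℕ => A * (|C| * (n : ℝ) ^ 3) * (c * (3 * R * Real.exp (-(n : ℝ))) / R') ^ a)
      atTop (𝓝 0) := by
    have h4 : Tendsto (fun x : ℝ => x ^ 3 * Real.exp (-(a * x))) atTop (𝓝 0) := by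
      have h5 := Real.tendsto_pow_mul_exp_neg_atTop_nhds_zero 3
      have h6 : Tendsto (fun x : ℝ => a * x) atTop atTop := tendsto_id.const_mul_atTop ha
      have h7 := (h5.comp h6).const_mul ((1 / a) ^ 3)
      rw [mul_zero] at h7
      refine h7.congr fun x => ?_
      simp only [Function.comp_apply]
      rw [mul_pow]
      field_simp
    have h5 := (h4.comp (tendsto_natCast_atTop_atTop (R := ℝ))).const_mul
      (A * |C| * (c * (3 * R) / R') ^ a)
    rw [mul_zero] at h5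
    refine h5.congr fun n => ?_
    simp only [Function.comp_apply]
    have e1 : c * (3 * R * Real.exp (-(n : ℝ))) / R' = c * (3 * R) / R' * Real.exp (-(n : ℝ)) := by ring
    rw [e1, Real.mul_rpow (by positivity) (Real.exp_pos _).le, ← Real.exp_mul]
    have e2 : -(n : ℝ) * a = -(a * n) := by ring
    rw [e2]
    ring
  have h4 := h3.eventually (gt_mem_nhds hε)
  filter_upwards [h1, h2, h4] with n h1 h2 h4 J hJ0 hJ
  have he : 0 < Real.exp (-(n : ℝ)) := Real.exp_pos _
  have h5 : 3 * R * Real.exp (-(n : ℝ)) / (J + 3) ≤ 3 * R * Real.exp (-(n : ℝ)) :=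
    div_le_self (by positivity) (by linarith)
  have h6 : c * (3 * R * Real.exp (-(n : ℝ)) / (J + 3)) ≤ c * (3 * R * Real.exp (-(n : ℝ))) :=
    mul_le_mul_of_nonneg_left h5 hc.le
  refine ⟨?_, h6.trans h2.le, h1.le⟩
  refine le_trans ?_ h4.le
  have hJC : J ≤ |C| * (n : ℝ) ^ 3 := hJ.trans (mul_le_mul_of_nonneg_right (le_abs_self C) (by positivity))
  have h7 : (c * (3 * R * Real.exp (-(n : ℝ)) / (J + 3)) / R') ^ a ≤
      (c * (3 * R * Real.exp (-(n : ℝ))) / R') ^ a :=
    Real.rpow_le_rpow (by positivity) (div_le_div_of_nonneg_right h6 hR'.le) ha.le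
  exact mul_le_mul (mul_le_mul_of_nonneg_left hJC hA) h7 (by positivity) (by positivity)

end DV.UP
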