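import Pool.Agent.Helper17.UP.As2
import Pool.Agent.Helper17.UP.Par
import Pool.Agent.Helper12.DV.Pq
import Pool.Agent.Helper23.DV.Fu

/-!
# Project DV, upper half, assembly, part 3: the upper half of the sandwich for every bounded open set
-/

open Filter Topology MeasureTheory RP4
open GF (Pl Cc Tst En Kc UpN md)
open GF.Lat (Xd)

namespace DV.UP

open DV.WD (eu Sh Lsite)
open SW (iw)

variable {κ M L s t : ℝ} {P : Finset Pl}

lemma EW_empty (κ L s t t' : ℝ) : EW κ L s t ∅ = EW κ L s t' ∅ := by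
  classical
  funext δ
  unfold EW ZP
  rw [Finset.image_empty, Finset.image_empty]

lemma eu_self' (x : Pl) : eu x x = 0 := by
  unfold eu
  rw [sub_self, sub_self]
  norm_num

/-- the blocks around the points in the domains -/
lemma sum_bk : ∃ C a : ℝ, 0 ≤ C ∧ 0 < a ∧ ∀ (D : ℝ → Finset V) (U : Filter ℝ), U ≤ 𝓝[>] 0 →
    (∀ᶠ δ in U, KO (D δ)) → ∀ P : Finset Pl, (∀ p ∈ P, Lsite D U p) → ∀ r R : ℝ, 0 < r → 0 < R →
    ∀ᶠ δ in U, ∑ p ∈ P, pr (Om (D δ)) (fun h => ¬ Bk 0 δ p r R h) ≤ C * P.card * (r / R) ^ a := by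
  obtain ⟨C, a, hC, ha, H⟩ := not_bk
  refine ⟨C, a, hC, ha, fun D U hU hKO P hP r R hr hR => ?_⟩
  have h1 : ∀ᶠ δ in U, ∀ p ∈ P, ∃ v ∈ OO (D δ) (bdry (D δ)), dist (pt δ v) p < r := by
    rw [Filter.eventually_all_finset]
    exact fun p hp => hP p hp r hr
  filter_upwards [h1, hKO, hU (small_ev' hr)] with δ h1 h2 h3
  have h4 : ∀ p ∈ P, pr (Om (D δ)) (fun h => ¬ Bk 0 δ p r R h) ≤ C * (r / R) ^ a := by
    intro p hp
    obtain ⟨v, hv, hvp⟩ := h1 p hp
    exact H (D δ) h2 p δ r R h3.1 h3.2.le hR ⟨v, hv, hvp.le⟩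
  have h5 := Finset.sum_le_sum h4
  rw [Finset.sum_const, nsmul_eq_mul] at h5
  linarith

/-- **The upper half of the sandwich** from the positivity of the blocks of ratio `κ`. -/
theorem upGen_of_pos (hd : Deloc) (hF : FlatC) (hZC : ZoneC) (hκ : 0 < κ) (hκ1 : κ < 1) (hb : BPos κ) :
    UpGen hd := by
  classical
  intro Ω D R₀ hΩ hbd hKO hDR hin hout f hf hf0 n
  have hK := GF.Kc_pos hd
  set G : Set Pl := frontier Ω with hG
  have hGc : IsCompact G := (Metric.isCompact_of_isClosed_isBounded isClosed_frontier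
    (hbd.closure.subset frontier_subset_closure))
  -- the distance of the support from the complement
  obtain ⟨R, hR, hfar⟩ : ∃ R > 0, ∀ x ∈ tsupport f, ∀ z, z ∉ Ω → 16 * R ≤ dist x z := by
    have hKs : IsCompact (tsupport f) := hf.supp
    obtain ⟨ε, hε, hsub⟩ := hKs.exists_cthickening_subset_open hΩ hf.sub
    refine ⟨ε / 16, by positivity, fun x hx z hz => ?_⟩
    by_contra hcon
    push Not at hcon
    exact hz (hsub (Metric.mem_cthickening_of_dist_le z x ε _ hx (by rw [dist_comm]; linarith)))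
  have hGΩ : ∀ z ∈ G, z ∉ Ω := fun z hz hzΩ => hz.2 (by rwa [hΩ.interior_eq])
  -- a bound for everything
  obtain ⟨B, hB0, hB⟩ : ∃ B, 0 ≤ B ∧ ∀ x ∈ closure Ω, dist x 0 ≤ B := by
    obtain ⟨B, hB⟩ := hbd.closure.subset_closedBall (0 : Pl)
    exact ⟨max B 0, le_max_right _ _, fun x hx => (Metric.mem_closedBall.1 (hB hx)).trans (le_max_left _ _)⟩
  set M : ℝ := B + |R₀| + 8 * R with hM
  have hM0 : 0 ≤ M := by positivity
  have hR0M : R₀ ≤ M := by
    have := le_abs_self R₀
    rw [hM]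
    linarith
  set L : ℝ := 2 * M + 10 with hL
  have hGB : ∀ z ∈ G, dist z 0 ≤ B := fun z hz => hB z (frontier_subset_closure hz)
  have hnear : ∀ x z, z ∈ G → dist x z ≤ 4 * R → dist x 0 ≤ B + 4 * R := fun x z hz hxz => by
    have h1 := dist_triangle x z 0
    have h2 := hGB z hz
    linarith
  have hBM : B + 8 * R ≤ M := by
    have := abs_nonneg R₀
    rw [hM]
    linarith
  have hfB : ∀ z ∈ tsupport f, dist z 0 ≤ B := fun z hz => hB z (subset_closure (hf.sub hz))
  -- parameters of the three kinds of weights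
  have hp₁ : ∀ (t : ℝ) (P : Finset Pl), 0 < t → t ≤ 1 → (∀ p ∈ P, dist p 0 ≤ M) → Prm κ M L 1 t P :=
    fun t P ht ht1 hP => ⟨hκ, hκ1, hM0, le_rfl, one_pos, le_rfl, ht, ht1, hP⟩
  have hp₂ : ∀ (t : ℝ) (P : Finset Pl), 0 < t → t ≤ 1 → (∀ p ∈ P, dist p 0 ≤ M) → Prm κ M L κ t P :=
    fun t P ht ht1 hP => ⟨hκ, hκ1, hM0, le_rfl, hκ, hκ1.le, ht, ht1, hP⟩
  have hκκ : κ * κ ≤ 1 := by nlinarith
  have hp₃ : ∀ (t : ℝ) (P : Finset Pl), 0 < t → t ≤ 1 → (∀ p ∈ P, dist p 0 ≤ M) →
      Prm κ M L (κ * κ) t P :=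
    fun t P ht ht1 hP => ⟨hκ, hκ1, hM0, le_rfl, mul_pos hκ hκ, hκκ, ht, ht1, hP⟩
  have hno : ∀ p ∈ (∅ : Finset Pl), dist p 0 ≤ M := fun p hp => absurd hp (Finset.notMem_empty p)
  -- moments
  choose C hC0 hC using fun n => mom_EW hd hF hZC hb (hp₁ 1 ∅ one_pos le_rfl hno) hf.toCc n
  refine ⟨C, fun ε hε U hU => ?_⟩
  -- (A)
  obtain ⟨CA, hCA, hmd⟩ := md_EW hd hf.toCc hf0 n R₀
  -- the bound near the boundary
  have hW₀ : EnvDat (U : Filter ℝ) {x | dist x 0 < M} (Kc hd) (EW κ L (κ * κ) (1 / 100) ∅) :=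
    (hp₃ (1 / 100) ∅ (by norm_num) (by norm_num) hno).env hb hd hF hZC hU one_pos le_rfl
      (by rw [Finset.card_empty]; norm_num) fun x hx => ⟨le_of_lt hx, fun p hp => absurd hp (Finset.notMem_empty p)⟩
  obtain ⟨S₁, hS₁, hcov⟩ := bound_cov hd hU hW₀.toWDat hf.toCc hf0 M
  set S : ℝ := S₁ / R ^ 2 with hS
  have hS0 : 0 ≤ S := by positivity
  obtain ⟨C₀, hC₀, hwall⟩ := WB.wall_of_envs hd
  set F : ℝ := ∫ z, f z with hFdef
  have hF0 : 0 ≤ F := integral_nonneg hf0
  set β : ℝ := ε / (F + 1) with hβ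
  have hβ0 : 0 < β := by positivity
  have hβF : β * F ≤ ε := by
    rw [hβ, div_mul_eq_mul_div, div_le_iff₀ (by linarith)]
    nlinarith
  obtain ⟨m, hm⟩ : ∃ m : ℕ, C₀ * ((39 / 40) ^ m * S) ≤ β / 3 := by
    have h1 : Tendsto (fun m : ℕ => C₀ * ((39 / 40 : ℝ) ^ m * S)) atTop (𝓝 (C₀ * (0 * S))) :=
      ((tendsto_pow_atTop_nhds_zero_of_lt_one (by norm_num) (by norm_num)).mul_const S).const_mul C₀
    rw [zero_mul, mul_zero] at h1
    obtain ⟨m, hm⟩ := (h1.eventually (gt_mem_nhds (show 0 < β / 3 by positivity))).exists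
    exact ⟨m, hm.le⟩
  set e : ℝ := β / (3 * C₀) with he
  have he0 : 0 < e := by positivity
  have heC : C₀ * e = β / 3 := by
    rw [he]
    field_simp
  -- near one block
  set Kt : Set Pl := Metric.cthickening R G with hKt
  have hKtc : IsCompact Kt := hGc.cthickening
  have hKm : ∀ z ∈ Kt, ∃ y ∈ G, dist z y ≤ R := by
    intro z hz
    rw [hKt, hGc.cthickening_eq_biUnion_closedBall hR.le] at hz
    simpa only [Set.mem_iUnion, Metric.mem_closedBall, exists_prop] using hz
  obtain ⟨ρ₀, hρ₀, hone⟩ := near_EW hd hF hZC hb (hp₂ 1 ∅ one_pos le_rfl hno) hKtc hR (fun z hz => by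
    obtain ⟨y, hy, hzy⟩ := hKm z hz
    have h1 := hnear z y hy (by linarith)
    linarith) hf.toCc (fun z hz x hx => by
    obtain ⟨y, hy, hzy⟩ := hKm z hz
    have h1 := hfar x (subset_tsupport f hx) y (hGΩ y hy)
    have h2 := dist_triangle x z y
    linarith) he0
  -- the points
  obtain ⟨Cp, hCp, hpts⟩ := WD.exists_points (Ω := Ω) hbd (D := D) (hKO.mono fun δ h => h.con) hout hR m
  obtain ⟨Cb, a, hCb, ha, hbk⟩ := sum_bk
  -- the choice of `n`
  set θ : ℝ := (ε / (4 * (CA + 1))) ^ 2 with hθ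
  have hθ0 : 0 < θ := by positivity
  have hθA : CA * √θ ≤ ε / 4 := by
    rw [hθ, Real.sqrt_sq (by positivity), ← mul_div_assoc, div_le_div_iff₀ (by positivity) (by norm_num)]
    nlinarith
  set ε₀ : ℝ := min (min 1 (R / 16)) (min (R / 8 ^ (m + 1)) ρ₀) with hε₀
  have hε₀0 : 0 < ε₀ := by
    rw [hε₀]
    refine lt_min (lt_min one_pos (by positivity)) (lt_min (by positivity) hρ₀)
  have hn1 := ratio_small (C := Cp) (c := κ / 8) (R := R) (ε := β / (3 * C₀ * (S + 1)))
    (by positivity) hR (by positivity)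
  have hn2 := params (C := Cp) (c := 1 / 1600) (R := R) (R' := R) (ε := θ) (a := a) (A := Cb)
    (by norm_num) hR hR hθ0 ha hCb
  have hn3 := params (C := Cp) (c := 1 / 1600) (R := R) (R' := R) (ε := ε₀) (a := a) (A := Cb)
    (by norm_num) hR hR hε₀0 ha hCb
  obtain ⟨k, hk1, hk2, hk3, hk4⟩ := (hn1.and (hn2.and (hn3.and (eventually_ge_atTop 1)))).exists
  obtain ⟨P, hPc, hPp, hPs⟩ := hpts U hU k hk4
  set J : ℝ := (P.card : ℝ) with hJ
  have hJ0 : 0 ≤ J := Nat.cast_nonneg _
  have hr1 := hk1 J hJ0 hPc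
  have hr2 := (hk2 J hJ0 hPc).1
  have hr3 := (hk3 J hJ0 hPc).2.2
  set τ : ℝ := 3 * R * Real.exp (-(k : ℝ)) with hτ
  have hτ0 : 0 < τ := by positivity
  set t : ℝ := 1 / 1600 * (τ / (J + 3)) with ht
  have ht0 : 0 < t := by positivity
  have hJt : (J + 3) * t = τ / 1600 := by
    rw [ht]
    field_simp
  have htτ : 4800 * t ≤ τ := by
    have h1 : 3 * t ≤ (J + 3) * t := mul_le_mul_of_nonneg_right (by linarith) ht0.le
    linarith
  set ρ : ℝ := 200 * (t * κ) with hρ
  have hρ' : ρ = κ / 8 * (τ / (J + 3)) := by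
    rw [hρ, ht]
    ring
  rw [← hρ'] at hr1
  have hρ0 : 0 < ρ := by positivity
  have htκ : t * κ ≤ t := mul_le_of_le_one_right ht0.le hκ1.le
  have hρτ : 8 * ρ ≤ τ := by linarith
  have hτ1 : τ ≤ 1 := hr3.trans ((min_le_left _ _).trans (min_le_left _ _))
  have hτR : τ ≤ R / 16 := hr3.trans ((min_le_left _ _).trans (min_le_right _ _))
  have hτm : τ ≤ R / 8 ^ (m + 1) := hr3.trans ((min_le_right _ _).trans (min_le_left _ _))
  have hτρ : τ ≤ ρ₀ := hr3.trans ((min_le_right _ _).trans (min_le_right _ _))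
  have hτm' : τ < R / 8 ^ m := by
    refine lt_of_le_of_lt hτm ?_
    rw [pow_succ]
    refine div_lt_div_of_pos_left hR (by positivity) ?_
    have : (0 : ℝ) < 8 ^ m := by positivity
    linarith
  -- the points are near the frontier and outside of `Ω`
  have hPG : ∀ p ∈ P, ∃ z ∈ G, eu p z ≤ R := fun p hp => (hPp p hp).2
  have hPΩ : ∀ p ∈ P, p ∉ Ω := fun p hp => (hPp p hp).1.notMem hU hΩ hin
  have hPM : ∀ p ∈ P, dist p 0 ≤ M := fun p hp => by
    obtain ⟨z, hz, hpz⟩ := hPG p hp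
    have h1 := hnear p z hz (by linarith [WD.dist_le_eu p z])
    linarith
  have hPK : ∀ p ∈ P, p ∈ Kt := fun p hp => by
    obtain ⟨z, hz, hpz⟩ := hPG p hp
    exact Metric.mem_cthickening_of_dist_le p z R G hz ((WD.dist_le_eu p z).trans hpz)
  have hfP : ∀ p ∈ P, ∀ z ∈ tsupport f, 16 * R ≤ dist z p := fun p hp z hz => hfar z hz p (hPΩ p hp)
  have hde : ∀ x y : Pl, eu x y ≤ 2 * dist x y := fun x y => WD.eu_le_two
  -- the conditions
  have hE : Prm κ M L 1 t P := hp₁ t P ht0 (by linarith) hPM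
  have hEp : ∀ p ∈ P, Prm κ M L κ (t * κ) {p} := fun p hp =>
    hp₂ (t * κ) {p} (by positivity) (by linarith) fun q hq => by
      rw [Finset.mem_singleton.1 hq]
      exact hPM p hp
  have hE₀ : Prm κ M L (κ * κ) (t * κ * κ) ∅ := hp₃ (t * κ * κ) ∅ (by positivity) (by
    have : t * κ * κ ≤ t * κ := mul_le_of_le_one_right (by positivity) hκ1.le
    linarith) hno
  -- the test sets
  have hopen : ∀ (c : ℝ) (Q : Finset Pl), IsOpen {x : Pl | ∀ p ∈ Q, c < eu x p} := by
    intro c Q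
    have h1 : {x : Pl | ∀ p ∈ Q, c < eu x p} = ⋂ p ∈ Q, {x : Pl | c < eu x p} := by
      ext x
      simp only [Set.mem_ofPred_eq, Set.mem_iInter]
    rw [h1]
    exact isOpen_biInter_finset fun p _ => isOpen_lt continuous_const (WD.eu_continuous p)
  have hball : IsOpen {x : Pl | dist x 0 < M} := isOpen_lt (continuous_id.dist continuous_const) continuous_const
  set W : Set Pl := Ω ∩ {x | ∀ p ∈ P, τ < eu x p} with hW
  have hWo : IsOpen W := hΩ.inter (hopen τ P)
  set Q : Set Pl := closure Ω ∩ {x | ∀ z ∈ G, R / 8 ^ m ≤ eu x z} with hQ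
  have hQc : IsCompact Q := by
    refine Metric.isCompact_of_isClosed_isBounded (isClosed_closure.inter ?_) (hbd.closure.subset Set.inter_subset_left)
    have h1 : {x : Pl | ∀ z ∈ G, R / 8 ^ m ≤ eu x z} = ⋂ z ∈ G, {x : Pl | R / 8 ^ m ≤ eu x z} := by
      ext x
      simp only [Set.mem_ofPred_eq, Set.mem_iInter]
    rw [h1]
    exact isClosed_biInter fun z _ => isClosed_le continuous_const (WD.eu_continuous z)
  have hQW : Q ⊆ W := by
    rintro x ⟨hx1, hx2⟩
    have hxΩ : x ∈ Ω := by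
      by_contra hcon
      have h1 : x ∈ G := ⟨hx1, fun h => hcon (interior_subset h)⟩
      have h2 := hx2 x h1
      rw [eu_self'] at h2
      have : 0 < R / 8 ^ m := by positivity
      linarith
    refine ⟨hxΩ, fun p hp => ?_⟩
    obtain ⟨z, hz, hzx⟩ := cross hΩ hxΩ (hPΩ p hp)
    have h1 := hx2 z hz
    linarith
  have hfW : Tst W f := ⟨hf.toCc, fun x hx => ⟨hf.sub hx, fun p hp => by
    have h1 := hfP p hp x hx
    have h2 := WD.dist_le_eu x p
    linarith⟩⟩
  have hEnW : En W f ≤ En Ω f + ε := by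
    have h1 := GF.En_mono (W := W) (W' := Ω) Set.inter_subset_left hbd hf.toCc
    linarith
  have hr₀ : ((P.card : ℝ) + 3) * (2 * t) < τ / 36 := by
    have h1 : ((P.card : ℝ) + 3) * (2 * t) = 2 * ((J + 3) * t) := by ring
    rw [h1, hJt]
    linarith
  have hEW : EnvDat (U : Filter ℝ) W (Kc hd) (EW κ L 1 t P) := by
    refine hE.env hb hd hF hZC hU (r₀ := τ / 36) (by positivity) (by linarith) hr₀ fun x hx => ?_
    refine ⟨by linarith [hB x (subset_closure hx.1)], fun p hp => ?_⟩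
    have h1 := hx.2 p hp
    have h2 := hde x p
    linarith
  -- the wall
  have hfG : ∀ x, (∃ z ∈ G, eu x z < 4 * R) → f x = 0 := by
    rintro x ⟨z, hz, hxz⟩
    by_contra hcon
    have h1 := hfar x (subset_tsupport f hcon) z (hGΩ z hz)
    have h2 := WD.dist_le_eu x z
    linarith
  have hreg : ∀ x, (∃ z ∈ G, eu x z < 4 * R) → dist x 0 ≤ B + 4 * R := by
    rintro x ⟨z, hz, hxz⟩
    exact hnear x z hz (by linarith [WD.dist_le_eu x z])
  have key := hwall U hU (Kc hd) f hf0 P G ρ τ R S e m ({x | dist x 0 < M} ∩ {x | ∀ p ∈ P, τ / 2 < eu x p})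
    {x | dist x 0 < M} (fun p => {x | dist x 0 < M} ∩ {x | ∀ q ∈ ({p} : Finset Pl), ρ < eu x q})
    (EW κ L 1 t P) (EW κ L (κ * κ) (1 / 100) ∅) (fun p => EW κ L κ (t * κ) {p})
    (hball.inter (hopen (τ / 2) P)) hball (fun p _ => hball.inter (hopen ρ {p}))
    ⟨hf.toCc, fun x hx => ⟨by
      have := hfB x hx
      show dist x 0 < M
      linarith, fun p hp => by
      have h1 := hfP p hp x hx
      have h2 := WD.dist_le_eu x p
      linarith⟩⟩
    ⟨hf.toCc, fun x hx => by
      have := hfB x hx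
      show dist x 0 < M
      linarith⟩
    (fun p hp => ⟨hf.toCc, fun x hx => ⟨by
      have := hfB x hx
      show dist x 0 < M
      linarith, fun q hq => by
      rw [Finset.mem_singleton.1 hq]
      have h1 := hfP p hp x hx
      have h2 := WD.dist_le_eu x p
      linarith⟩⟩)
    (hE.env hb hd hF hZC hU (r₀ := τ / 36) (by positivity) (by linarith) hr₀ fun x hx => ⟨le_of_lt hx.1, fun p hp => by
      have h1 := hx.2 p hp
      have h2 := hde x p
      linarith⟩)
    hW₀
    (fun p hp => (hEp p hp).env hb hd hF hZC hU (r₀ := ρ / 18) (by positivity) (by linarith) (by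
      rw [Finset.card_singleton, hρ]
      have : 0 < t * κ := by positivity
      push_cast
      linarith) fun x hx => ⟨le_of_lt hx.1, fun q hq => by
      have h1 := hx.2 q hq
      have h2 := hde x q
      linarith⟩)
    (fun x hx => ⟨by
      have := hreg x hx.1
      show dist x 0 < M
      linarith, hx.2⟩)
    (fun x hx => by
      have := hreg x hx
      show dist x 0 < M
      linarith)
    (fun p hp x hx => ⟨by
      have := hreg x hx.1
      show dist x 0 < M
      linarith, fun q hq => by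
      rw [Finset.mem_singleton.1 hq]
      exact hx.2⟩)
    hfG hρ0 hρτ (by linarith) hS0 he0.le hPG
    (fun j hj z hz => hPs τ le_rfl j hj z hz)
    (fun η hη hη0 => by
      have h1 := hE.cmp hE₀ hb hd hU (Finset.empty_subset P) (by rw [one_mul]; exact mul_le_of_le_one_right hκ.le hκ1.le)
        (mul_le_of_le_one_right (by positivity) hκ1.le) hf.toCc hη.toCc hf0 hη0
        (fun z hz => by linarith [hfB z hz]) (fun z hz => by linarith [hreg z (hη.sub hz).1])
        (fun p hp z hz => by linarith [hfP p hp z hz])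
        (fun p hp z hz => by
          have h1 := (hη.sub hz).2 p hp
          have h2 := hde z p
          linarith)
      rwa [EW_empty κ L (κ * κ) (t * κ * κ) (1 / 100)] at h1)
    (fun p hp η hη hη0 => hE.cmp (hEp p hp) hb hd hU (Finset.singleton_subset_iff.2 hp) (by rw [one_mul])
        le_rfl hf.toCc hη.toCc hf0 hη0
        (fun z hz => by linarith [hfB z hz]) (fun z hz => by linarith [hreg z (hη.sub hz).1])
        (fun p hp z hz => by linarith [hfP p hp z hz])
        (fun p hp z hz => by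
          have h1 := (hη.sub hz).2 p hp
          have h2 := hde z p
          linarith))
    (fun p hp η hη hη0 => by
      have h1 := (hEp p hp).cmp hE₀ hb hd hU (Finset.empty_subset {p}) le_rfl le_rfl hf.toCc hη.toCc hf0 hη0
        (fun z hz => by linarith [hfB z hz]) (fun z hz => by linarith [hreg z (hη.sub hz).1])
        (fun q hq z hz => by
          rw [Finset.mem_singleton.1 hq]
          linarith [hfP p hp z hz])
        (fun q hq z hz => by
          rw [Finset.mem_singleton.1 hq]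
          have h1 := (hη.sub hz).2
          have h2 := hde z p
          have : 0 < t * κ := by positivity
          linarith)
      rwa [EW_empty κ L (κ * κ) (t * κ * κ) (1 / 100)] at h1)
    (fun η hη hη1 hηs => by
      have h1 := hcov η hη hη1 fun z hz => by linarith [hreg z (hηs z hz)]
      have h2 : S * R ^ 2 = S₁ := by
        rw [hS]
        field_simp
      rwa [h2])
    (fun p hp η hη hη1 hηs => hone (t * κ) (by positivity) (by linarith) (by linarith) p (hPK p hp) U hU η hη hη1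
      hηs)
  have hwallb : ∀ η, Tst (W \ Q) η → (∀ z, 0 ≤ η z) → ∀ e > 0, ∀ᶠ δ in (U : Filter ℝ),
      qt (EW κ L 1 t P) (fun δ h => Xd δ f h * Xd δ η h) δ ≤ β * (∫ z, η z) + e := by
    intro η hη hη0 e' he'
    have h1 := key η (hη.mono fun x hx => ⟨by
      by_contra hcon
      push Not at hcon
      exact hx.2 ⟨subset_closure hx.1.1, hcon⟩, hx.1.2⟩) hη0 e' he'
    filter_upwards [h1] with δ h2
    refine h2.trans ?_
    have h3 : 0 ≤ ∫ z, η z := integral_nonneg hη0
    have h4 : C₀ * ((39 / 40) ^ m * S + e + S * Real.log (τ / ρ) / Real.log (R / ρ)) ≤ β := by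
      have h5 : C₀ * (S * Real.log (τ / ρ) / Real.log (R / ρ)) ≤ β / 3 := by
        have h6 : S * Real.log (τ / ρ) / Real.log (R / ρ) = S * (Real.log (τ / ρ) / Real.log (R / ρ)) :=
          mul_div_assoc _ _ _
        rw [h6]
        have h7 : S * (Real.log (τ / ρ) / Real.log (R / ρ)) ≤ S * (β / (3 * C₀ * (S + 1))) :=
          mul_le_mul_of_nonneg_left hr1 hS0
        refine (mul_le_mul_of_nonneg_left h7 hC₀.le).trans ?_
        have h8 : C₀ * (S * (β / (3 * C₀ * (S + 1)))) = β / 3 * (S / (S + 1)) := by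
          field_simp
        rw [h8]
        have h9 : S / (S + 1) ≤ 1 := (div_le_one (by linarith)).2 (by linarith)
        exact mul_le_of_le_one_right (by positivity) h9
      calc C₀ * ((39 / 40) ^ m * S + e + S * Real.log (τ / ρ) / Real.log (R / ρ)) =
            C₀ * ((39 / 40) ^ m * S) + C₀ * e + C₀ * (S * Real.log (τ / ρ) / Real.log (R / ρ)) := by ring
        _ ≤ β / 3 + β / 3 + β / 3 := by linarith
        _ = β := by ring
    have h5 := mul_le_mul_of_nonneg_right h4 h3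
    linarith
  -- (A)
  have hmdE : ∀ᶠ δ in (U : Filter ℝ), md D f n δ ≤
      qt (EW κ L 1 t P) (fun δ h => Xd δ f h ^ (2 * n)) δ + ε / 2 := by
    have h1 := hmd D (by
      filter_upwards [hKO, hDR] with δ a b using ⟨a.par, b⟩) U hU κ M L 1 t P R θ (ε / 4) hE hb hR0M (by linarith)
      (hU (mass_dom hΩ hin hf)) (fun p hp z hz => by linarith [hfP p hp z hz]) (by
        have h2 := hbk D U hU (hU hKO) P (fun p hp => (hPp p hp).1) t R ht0 hR
        filter_upwards [h2] with δ h3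
        exact h3.trans hr2) (by positivity)
    filter_upwards [h1] with δ h2
    linarith
  exact GF.upN_of_envDat hd hU hK hWo hfW hf0 hQc hQW hEnW hEW hβ0.le hβF hwallb
    (fun k => hC k t P hE U hU) (show ε / 2 < ε by linarith) hmdE

end DV.UP
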