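import Pool.Agent.Helper17.UP.As1

/-!
# Project DV, upper half: positive mass of finitely many blocks of a fixed ratio
-/

open Finset Filter Topology RP4
open GF (Pl)

namespace DV.UP

open SW (iw)

/-- blocks of ratio `κ` have positive probability in flat domains of bounded size -/
def GDc (κ : ℝ) : Prop := ∀ L t : ℝ, 0 < t → ∃ c > 0, ∀ᶠ δ in 𝓝[>] (0 : ℝ), ∀ (z : Pl) (D : Finset V),
  BdryPar D 0 → Inn δ z t ⊆ (D : Set V) → (D : Set V) ⊆ Inn δ 0 L → c ≤ pr (Om D) (Bk 0 δ z (t * κ) t)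

private lemma bk_eq (δ : ℝ) (z : Pl) (r s : ℝ) : Bk 0 δ z r s = Sep (Inn δ z r) (Out δ z s) := by
  funext g
  unfold Bk
  rw [lev_zero]

private lemma sm {a : ℝ} (ha : 0 < a) : ∀ᶠ δ in 𝓝[>] (0 : ℝ), δ < a :=
  (eventually_lt_nhds ha).filter_mono nhdsWithin_le_nhds

private lemma exists_min {ι : Type} (Z : Finset ι) {c : ι → ℝ} (hc : ∀ i ∈ Z, 0 < c i) :
    ∃ c₀ : ℝ, 0 < c₀ ∧ c₀ ≤ 1 ∧ ∀ i ∈ Z, c₀ ≤ c i := by
  classical
  induction Z using Finset.induction_on with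
  | empty => exact ⟨1, one_pos, le_rfl, fun i hi => absurd hi (Finset.notMem_empty i)⟩
  | insert a s ha ih =>
    obtain ⟨c₀, h1, h2, h3⟩ := ih fun i hi => hc i (Finset.mem_insert_of_mem hi)
    refine ⟨min c₀ (c a), lt_min h1 (hc a (Finset.mem_insert_self a s)), (min_le_left _ _).trans h2, ?_⟩
    intro i hi
    rcases Finset.mem_insert.1 hi with rfl | hi
    · exact min_le_right _ _
    · exact (min_le_left _ _).trans (h3 i hi)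

theorem bpos_of_gdc (hd : Deloc) (hF : FlatC) {κ : ℝ} (hκ : 0 < κ) (hκ1 : κ < 1) (hg : GDc κ) : BPos κ := by
  classical
  intro Z hne hZ
  obtain ⟨W, hW0, hW⟩ : ∃ W : ℝ, 0 < W ∧ ∀ z ∈ Z, dist z.1 0 + z.2.2 < W := by
    refine ⟨∑ z ∈ Z, (dist z.1 0 + z.2.2) + 1, ?_, fun z hz => ?_⟩
    · have : 0 ≤ ∑ z ∈ Z, (dist z.1 0 + z.2.2) :=
        Finset.sum_nonneg fun z hz => add_nonneg dist_nonneg (hZ z hz).1.le
      linarith
    · have := Finset.single_le_sum (f := fun z : Pl × ℝ × ℝ => dist z.1 0 + z.2.2)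
        (fun z hz => add_nonneg dist_nonneg (hZ z hz).1.le) hz
      linarith
  obtain ⟨L, hL, hbig⟩ := big_block hd hF hW0
  have hr0 : ∀ z ∈ Z, 0 < z.2.1 := fun z hz => by
    rw [(hZ z hz).2]
    exact mul_pos (hZ z hz).1 hκ
  have hrs : ∀ z ∈ Z, 0 < z.2.2 - z.2.1 := fun z hz => by
    rw [(hZ z hz).2]
    nlinarith [(hZ z hz).1]
  -- the constant
  have hex : ∀ z : Pl × ℝ × ℝ, ∃ c : ℝ, z ∈ Z → 0 < c ∧ ∀ᶠ δ in 𝓝[>] (0 : ℝ), ∀ (z' : Pl) (D : Finset V),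
      BdryPar D 0 → Inn δ z' z.2.2 ⊆ (D : Set V) → (D : Set V) ⊆ Inn δ 0 L →
        c ≤ pr (Om D) (Bk 0 δ z' z.2.1 z.2.2) := by
    intro z
    by_cases hz : z ∈ Z
    · obtain ⟨c, hc, h⟩ := hg L z.2.2 (hZ z hz).1
      refine ⟨c, fun _ => ⟨hc, ?_⟩⟩
      rw [(hZ z hz).2]
      exact h
    · exact ⟨0, fun h => absurd h hz⟩
  choose cz hcz using hex
  obtain ⟨c₀, hc₀, hc₁, hc₂⟩ := exists_min Z (c := cz) fun z hz => (hcz z hz).1
  refine ⟨c₀ ^ Z.card * (1 / 2), by positivity, ?_⟩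
  have hgd : ∀ᶠ δ in 𝓝[>] (0 : ℝ), ∀ z ∈ Z, (∀ (z' : Pl) (D : Finset V), BdryPar D 0 →
      Inn δ z' z.2.2 ⊆ (D : Set V) → (D : Set V) ⊆ Inn δ 0 L → c₀ ≤ pr (Om D) (Bk 0 δ z' z.2.1 z.2.2)) ∧
        δ < z.2.1 ∧ δ < z.2.2 - z.2.1 := by
    rw [Filter.eventually_all_finset]
    intro z hz
    filter_upwards [(hcz z hz).2, sm (hr0 z hz), sm (hrs z hz)] with δ a b c
    exact ⟨fun z' D h1 h2 h3 => (hc₂ z hz).trans (a z' D h1 h2 h3), b, c⟩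
  filter_upwards [hbig, hgd, self_mem_nhdsWithin, sm hW0, sm (show 0 < L - W by linarith)] with
    δ hM hδ hδ0 hδW hδL
  have hδ0' : (0 : ℝ) < δ := hδ0
  have hdisj : Disjoint (Inn δ (0 : Pl) W) (nb (Out δ (0 : Pl) L)) := disj_Inn_Out hδ0' (by linarith)
  have hneA : (Inn δ (0 : Pl) W).Nonempty := Inn_nonempty hδ0' 0 hδW.le
  have hin : ∀ z ∈ Z, ∀ v : V, dist (pt δ v) z.1 ≤ z.2.2 → v ∈ Inn δ (0 : Pl) W := by
    intro z hz v hv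
    have h1 := hW z hz
    have h2 := dist_triangle (pt δ v) z.1 0
    show dist (pt δ v) 0 ≤ W
    linarith
  have hloc : ∀ g g' : V → ℤ, (∀ v ∈ Inn δ (0 : Pl) W, g v = g' v) →
      ((∀ z ∈ Z, Bk 0 δ z.1 z.2.1 z.2.2 g) ↔ ∀ z ∈ Z, Bk 0 δ z.1 z.2.1 z.2.2 g') := by
    intro g g' hg
    refine forall₂_congr fun z hz => bk_loc hδ0' (by linarith [(hδ z hz).2.2]) fun v hv => ?_
    exact hg v (hin z hz v hv.le)
  set F : (V → ℤ) → ℝ := ic fun g => ∀ z ∈ Z, Bk 0 δ z.1 z.2.1 z.2.2 g with hFdef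
  have h1 : c₀ ^ Z.card * Mp (Sep (Inn δ (0 : Pl) W) (Out δ (0 : Pl) L)) ≤
      Mr (fun g => ic (Sep (Inn δ (0 : Pl) W) (Out δ (0 : Pl) L)) g * F g) := by
    refine M_out_ge hd hneA hdisj (compl_Out_sub hδ0' 0 L)
      (fun g g' hg => ic_congr (hloc g g' fun v hv => hg v (sub_nb _ hv))) fun U hU hAU hUB => ?_
    have h2 : avg (Om U) F = pr (Om U) fun g => ∀ z ∈ Z, Bk 0 δ z.1 z.2.1 z.2.2 g := rfl
    rw [h2]
    refine pr_all Z U hU (fun z => Bk 0 δ z.1 z.2.1 z.2.2) (fun z _ => bk_dec _ _ _ _) hc₀.le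
      hc₁ fun z hz => ?_
    refine (hδ z hz).1 z.1 U hU (fun v hv => hAU (sub_nb _ (hin z hz v hv))) fun v hv => ?_
    have h3 : ¬ L ≤ dist (pt δ v) 0 := hUB hv
    exact (not_le.1 h3).le
  obtain ⟨z₀, hz₀⟩ := hne
  have hWL : ∀ v ∈ Inn δ (0 : Pl) W, v ∈ Is δ (0 : Pl) L := by
    intro v hv
    rw [mem_Is hδ0']
    have h2 : dist (pt δ v) 0 ≤ W := hv
    linarith
  have hlocs : ∀ g g' : V → ℤ, (∀ x ∈ Is δ (0 : Pl) L, g x = g' x) → F g = F g' := fun g g' hg =>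
    ic_congr (hloc g g' fun v hv => hg v (hWL v hv))
  have hPF : PR (Is δ (0 : Pl) L) F := by
    have h2 := PR_sep (A := Inn δ z₀.1 z₀.2.1) (B := Out δ z₀.1 z₀.2.2)
      (Inn_nonempty hδ0' z₀.1 (hδ z₀ hz₀).2.1.le)
      (disj_Inn_Out hδ0' (by linarith [(hδ z₀ hz₀).2.2])) (s := Is δ (0 : Pl) L)
      (fun v hv => Finset.mem_coe.2 (hWL v (hin z₀ hz₀ v ?_))) hlocs
    · have h3 : (fun g => ic (Sep (Inn δ z₀.1 z₀.2.1) (Out δ z₀.1 z₀.2.2)) g * F g) = F := by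
        funext g
        by_cases h4 : ∀ z ∈ Z, Bk 0 δ z.1 z.2.1 z.2.2 g
        · have h5 := h4 z₀ hz₀
          rw [bk_eq] at h5
          have h6 : ic (Sep (Inn δ z₀.1 z₀.2.1) (Out δ z₀.1 z₀.2.2)) g = 1 := if_pos h5
          rw [h6, one_mul]
        · have h6 : F g = 0 := if_neg h4
          rw [h6, mul_zero]
      rwa [h3] at h2
    · have h3 : ¬ z₀.2.2 ≤ dist (pt δ v) z₀.1 := hv
      exact (not_le.1 h3).le
  have hPS : PR (Is δ (0 : Pl) L) fun g => ic (Sep (Inn δ (0 : Pl) W) (Out δ (0 : Pl) L)) g * F g :=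
    PR_sep hneA hdisj (compl_Out_sub hδ0' 0 L) hlocs
  have h2 : Mr (fun g => ic (Sep (Inn δ (0 : Pl) W) (Out δ (0 : Pl) L)) g * F g) ≤ Mr F := by
    refine Mr_mono hd hPS hPF fun g => ?_
    have h3 := ic_le_one (Sep (Inn δ (0 : Pl) W) (Out δ (0 : Pl) L)) g
    have h4 : 0 ≤ F g := ic_nonneg _ _
    nlinarith
  have h3 : MR (iw (BlkF Z δ)) = Mr F := rfl
  rw [h3]
  rw [bk_eq] at hM
  have h4 : (0 : ℝ) < c₀ ^ Z.card := by positivity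
  calc c₀ ^ Z.card * (1 / 2) ≤ _ := mul_le_mul_of_nonneg_left hM h4.le
    _ ≤ _ := h1
    _ ≤ _ := h2

end DV.UP
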