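import Pool.Agent.Helper41.DV.Fin
import Pool.Agent.Helper97.DV.Tl
import Pool.Agent.Helper94.BR.Geo
import Pool.Agent.Helper25.WD.Pf

/-!
# Project DV, upper half: limit points of the boundaries

For `z ∈ frontier Ω` and a radius `t` smaller than the distance of a point of `Ω`, the circle of radius `t` about `z` contains
a limit point (along the ultrafilter) of vertices of `bdry (D δ)`.  Finitely many of these points form shells around all
points of the frontier.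
-/

open Filter Topology RP4
open GF (Pl)
open GF.Fin (Approximates EvenDomain Diagonal Boundary)

namespace DV.UP

open DV.WD (eu Sh)

/-! ### elementary facts -/

lemma ivt_up {f : ℕ → ℝ} {i j : ℕ} (hij : i ≤ j) {t e : ℝ} (he : 0 ≤ e)
    (hs : ∀ k, i ≤ k → k < j → |f (k + 1) - f k| ≤ e) (h1 : f i ≤ t) (h2 : t ≤ f j) :
    ∃ k, i ≤ k ∧ k ≤ j ∧ |f k - t| ≤ e := by
  induction j, hij using Nat.le_induction with
  | base =>
    refine ⟨i, le_rfl, le_rfl, ?_⟩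
    have h3 : f i - t = 0 := by linarith
    rw [h3, abs_zero]
    exact he
  | succ j hij ih =>
    by_cases h3 : t ≤ f j
    · obtain ⟨k, k1, k2, k3⟩ := ih (fun k h4 h5 => hs k h4 (by omega)) h3
      exact ⟨k, k1, by omega, k3⟩
    · have h4 := abs_le.1 (hs j hij (by omega))
      refine ⟨j + 1, by omega, le_rfl, ?_⟩
      rw [abs_le]
      push Not at h3
      constructor <;> linarith [h4.1, h4.2]

lemma ivt_seq {f : ℕ → ℝ} {n i j : ℕ} (hi : i < n) (hj : j < n) {t e : ℝ} (he : 0 ≤ e)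
    (hs : ∀ k < n, |f (k + 1) - f k| ≤ e) (h1 : f i ≤ t) (h2 : t ≤ f j) :
    ∃ k < n, |f k - t| ≤ e := by
  rcases le_total i j with hij | hij
  · obtain ⟨k, k1, k2, k3⟩ := ivt_up hij he (fun k _ h4 => hs k (by omega)) h1 h2
    exact ⟨k, by omega, k3⟩
  · obtain ⟨k, k1, k2, k3⟩ := ivt_up (f := fun k => -f k) (t := -t) hij he (fun k _ h4 => by
      have := hs k (by omega)
      have e1 : -f (k + 1) - -f k = -(f (k + 1) - f k) := by ring
      rw [e1, abs_neg]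
      exact this) (by linarith) (by linarith)
    refine ⟨k, by omega, ?_⟩
    have e1 : -f k - -t = -(f k - t) := by ring
    rw [e1, abs_neg] at k3
    exact k3

lemma pt_dist_kng {δ : ℝ} (hδ : 0 ≤ δ) {u v : V} {n : ℤ} (h : u ∈ Sq v n) :
    dist (pt δ u) (pt δ v) ≤ δ * n := by
  obtain ⟨h1, h2⟩ := h
  have h3 : |(u.1 : ℝ) - v.1| ≤ n := by exact_mod_cast h1
  have h4 : |(u.2 : ℝ) - v.2| ≤ n := by exact_mod_cast h2
  unfold pt
  rw [Prod.dist_eq, max_le_iff, Real.dist_eq, Real.dist_eq, ← mul_sub, ← mul_sub, abs_mul, abs_mul,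
    abs_of_nonneg hδ]
  exact ⟨mul_le_mul_of_nonneg_left h3 hδ, mul_le_mul_of_nonneg_left h4 hδ⟩

lemma eu_dia {δ : ℝ} (hδ : 0 ≤ δ) {u v : V} (h : Diagonal u v) : eu (pt δ u) (pt δ v) ≤ 2 * δ := by
  obtain ⟨h1, h2⟩ := h
  refine WD.eu_le_two.trans ?_
  have h3 : u ∈ Sq v 1 := ⟨h1.le, h2.le⟩
  have h4 := pt_dist_kng hδ h3
  push_cast at h4
  linarith

/-- the lattice point near a point of the plane -/
lemma near_pt {δ : ℝ} (hδ : 0 < δ) (y : Pl) : ∃ v : V, dist (pt δ v) y ≤ δ := by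
  have key : ∀ a : ℝ, |δ * (⌊a / δ⌋ : ℝ) - a| ≤ δ := by
    intro a
    have h1 := Int.floor_le (a / δ)
    have h2 := Int.lt_floor_add_one (a / δ)
    have h3 : δ * (a / δ) = a := by field_simp
    have h4 := mul_le_mul_of_nonneg_left h1 hδ.le
    have h5 := mul_lt_mul_of_pos_left h2 hδ
    rw [h3] at h4 h5
    rw [abs_le]
    constructor
    · nlinarith
    · linarith
  refine ⟨(⌊y.1 / δ⌋, ⌊y.2 / δ⌋), ?_⟩
  unfold pt
  rw [Prod.dist_eq, max_le_iff, Real.dist_eq, Real.dist_eq]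
  exact ⟨key _, key _⟩

lemma adj_pt {δ : ℝ} (hδ : 0 ≤ δ) {u v : V} (h : Adj u v) : dist (pt δ u) (pt δ v) ≤ δ := by
  have := pt_dist (δ := δ) h
  rwa [abs_of_nonneg hδ] at this

/-- a site of `D` and a site off `D` have a boundary site between them -/
lemma bdry_between {D : Finset V} {x y : V} (hx : x ∉ D) (hy : y ∈ D) {δ : ℝ} (hδ : 0 ≤ δ) :
    ∃ u ∈ bdry D, dist (pt δ u) (pt δ y) ≤ dist (pt δ x) (pt δ y) := by
  set n : ℤ := max |x.1 - y.1| |x.2 - y.2| with hn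
  have hn0 : 0 ≤ n := le_max_of_le_left (abs_nonneg _)
  have hxS : x ∈ Sq y n := ⟨le_max_left _ _, le_max_right _ _⟩
  have hyS : y ∈ Sq y n := by
    constructor
    · rw [sub_self, abs_zero]
      exact hn0
    · rw [sub_self, abs_zero]
      exact hn0
  obtain ⟨b, hb, hbS⟩ := exists_bd_in' (U := (D : Set V)) hy hyS hxS hx
  have hb' : b ∈ bdry D := by
    rw [mem_bdry]
    obtain ⟨h1, z, h2, h3⟩ := hb
    exact ⟨h1, z, adj_symm h2, h3⟩
  refine ⟨b, hb', (pt_dist_kng hδ hbS).trans (le_of_eq ?_)⟩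
  unfold pt
  rw [Prod.dist_eq, Real.dist_eq, Real.dist_eq]
  simp only
  rw [← mul_sub, ← mul_sub, abs_mul, abs_mul, abs_of_nonneg hδ, hn]
  push_cast
  rw [mul_max_of_nonneg _ _ hδ]

/-- a boundary site which is farther from `z` than a given site of `D` -/
lemma bdry_far {D : Finset V} {y : V} (hy : y ∈ D) {δ : ℝ} (hδ : 0 ≤ δ) (z : Pl) :
    ∃ u ∈ bdry D, eu (pt δ y) z ≤ eu (pt δ u) z := by
  classical
  obtain ⟨s, hs, hsz⟩ : ∃ s : ℤ, (s = 1 ∨ s = -1) ∧ 0 ≤ (s : ℝ) * (δ * y.1 - z.1) := by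
    rcases le_total 0 (δ * (y.1 : ℝ) - z.1) with h | h
    · exact ⟨1, Or.inl rfl, by push_cast; linarith⟩
    · exact ⟨-1, Or.inr rfl, by push_cast; linarith⟩
  obtain ⟨u, hu, hmax⟩ := Finset.exists_max_image (D.filter fun v => v.2 = y.2 ∧ s * y.1 ≤ s * v.1)
    (fun v => s * v.1) ⟨y, Finset.mem_filter.2 ⟨hy, rfl, le_rfl⟩⟩
  obtain ⟨huD, hu2, hu1⟩ := Finset.mem_filter.1 hu
  have hadj : Adj ((u.1 + s, u.2) : V) u := by
    unfold Adj
    rcases hs with rfl | rfl <;> simp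
  have hnot : ((u.1 + s, u.2) : V) ∉ D := by
    intro h
    have h1 := hmax (u.1 + s, u.2) (Finset.mem_filter.2 ⟨h, hu2, by
      simp only
      rcases hs with rfl | rfl <;> linarith⟩)
    simp only at h1
    rcases hs with rfl | rfl <;> linarith
  refine ⟨u, mem_bdry.2 ⟨huD, _, hadj, hnot⟩, ?_⟩
  have h1 : (s : ℝ) * y.1 ≤ s * u.1 := by exact_mod_cast hu1
  have h2 : (u.2 : ℝ) = y.2 := by exact_mod_cast hu2
  have h3 : (δ * (y.1 : ℝ) - z.1) ^ 2 ≤ (δ * (u.1 : ℝ) - z.1) ^ 2 := by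
    have h4 : δ * (s * (y.1 : ℝ)) ≤ δ * (s * u.1) := mul_le_mul_of_nonneg_left h1 hδ
    rcases hs with rfl | rfl
    · push_cast at hsz h4
      have h5 : 0 ≤ δ * (y.1 : ℝ) - z.1 := by linarith
      exact pow_le_pow_left₀ h5 (by linarith) 2
    · push_cast at hsz h4
      have h5 : 0 ≤ -(δ * (y.1 : ℝ) - z.1) := by linarith
      have h6 := pow_le_pow_left₀ h5 (show -(δ * (y.1 : ℝ) - z.1) ≤ -(δ * (u.1 : ℝ) - z.1) by linarith) 2
      rwa [neg_sq, neg_sq] at h6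
  unfold eu pt
  simp only
  rw [h2]
  exact Real.sqrt_le_sqrt (by linarith)

/-- intermediate values along the circuit of the boundary -/
lemma circ {D : Finset V} (hD : EvenDomain D) {δ : ℝ} (hδ : 0 ≤ δ) {u u' : V} (hu : u ∈ bdry D)
    (hu' : u' ∈ bdry D) {z : Pl} {t : ℝ} (h1 : eu (pt δ u) z ≤ t) (h2 : t ≤ eu (pt δ u') z) :
    ∃ v ∈ bdry D, |eu (pt δ v) z - t| ≤ 2 * δ := by
  obtain ⟨n, c, hn, hc, hstep, hB, -⟩ := hD
  have hmem : ∀ v, v ∈ bdry D ↔ ∃ i < n, c i = v := by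
    intro v
    have h3 : v ∈ Boundary D ↔ v ∈ (bdry D : Set V) := by rw [GF.Fin.boundary_eq]
    rw [← Finset.mem_coe, ← h3, hB]
    rfl
  obtain ⟨i, hi, rfl⟩ := (hmem u).1 hu
  obtain ⟨j, hj, rfl⟩ := (hmem u').1 hu'
  obtain ⟨k, hk, h3⟩ := ivt_seq (f := fun k => eu (pt δ (c k)) z) hi hj (e := 2 * δ) (by linarith)
    (fun k hk => by
      refine (WD.eu_abs _ _ _).trans ?_
      rw [WD.eu_comm]
      exact eu_dia hδ (hstep k hk)) h1 h2
  exact ⟨c k, (hmem _).2 ⟨k, hk, rfl⟩, h3⟩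

/-! ### the sequence of domains -/

variable {Ω : Set Pl} {D : ℝ → Finset V}

lemma small_ev {r : ℝ} (hr : 0 < r) : ∀ᶠ δ in 𝓝[>] (0 : ℝ), 0 < δ ∧ δ < r := by
  have h1 : ∀ᶠ δ in 𝓝[>] (0 : ℝ), 0 < δ := self_mem_nhdsWithin
  have h2 : ∀ᶠ δ in 𝓝[>] (0 : ℝ), δ < r := nhdsWithin_le_nhds (Iio_mem_nhds hr)
  filter_upwards [h1, h2] with δ a b using ⟨a, b⟩

/-- lattice points near a point of `Ω` are in `D δ` -/
lemma in_dom (hΩ : IsOpen Ω) (hD : Approximates D Ω) {y : Pl} (hy : y ∈ Ω) :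
    ∃ r > 0, ∀ᶠ δ in 𝓝[>] (0 : ℝ), ∀ v : V, dist (pt δ v) y ≤ r → v ∈ D δ := by
  obtain ⟨r, hr, hsub⟩ := Metric.isOpen_iff.1 hΩ y hy
  refine ⟨r / 2, by linarith, ?_⟩
  have h1 := hD.inner (Metric.closedBall y (r / 2)) (isCompact_closedBall _ _)
    ((Metric.closedBall_subset_ball (by linarith)).trans hsub)
  filter_upwards [h1] with δ h2 v hv
  exact h2 v (Metric.mem_closedBall.2 hv)

/-- boundary sites near a point of the frontier -/
lemma bdry_near (hΩ : IsOpen Ω) (hD : Approximates D Ω) {z : Pl} (hz : z ∈ frontier Ω) {ε : ℝ}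
    (hε : 0 < ε) : ∀ᶠ δ in 𝓝[>] (0 : ℝ), ∃ u ∈ bdry (D δ), dist (pt δ u) z < ε := by
  obtain ⟨y, hy, hyz⟩ := Metric.mem_closure_iff.1 (frontier_subset_closure hz) (ε / 8) (by linarith)
  obtain ⟨r, hr, hin⟩ := in_dom hΩ hD hy
  filter_upwards [hin, hD.outer z hz (ε / 8) (by linarith), small_ev (lt_min hr (show 0 < ε / 8 by linarith))]
    with δ h1 h2 h3
  obtain ⟨x, hx, hxz⟩ := h2
  obtain ⟨v, hv⟩ := near_pt h3.1 y
  have hvD : v ∈ D δ := h1 v (hv.trans (h3.2.le.trans (min_le_left _ _)))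
  obtain ⟨u, hu, hud⟩ := bdry_between hx hvD h3.1.le
  refine ⟨u, hu, ?_⟩
  have h4 : dist (pt δ v) y < ε / 8 := lt_of_le_of_lt hv (h3.2.trans_le (min_le_right _ _))
  have h5 := dist_triangle (pt δ u) (pt δ v) z
  have h6 := dist_triangle (pt δ v) y z
  have h7 := dist_triangle_right (pt δ x) (pt δ v) z
  rw [dist_comm z y] at hyz
  have h8 : dist (pt δ x) z < ε / 8 := hxz
  linarith

/-- boundary sites on a circle -/
lemma bdry_circ (hΩ : IsOpen Ω) (hD : Approximates D Ω) {y z : Pl} (hy : y ∈ Ω) (hz : z ∈ frontier Ω)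
    {t : ℝ} (ht : 0 < t) (hty : t < eu y z) :
    ∀ᶠ δ in 𝓝[>] (0 : ℝ), ∃ v ∈ bdry (D δ), |eu (pt δ v) z - t| ≤ 2 * δ := by
  obtain ⟨r, hr, hin⟩ := in_dom hΩ hD hy
  filter_upwards [hin, bdry_near hΩ hD hz (show 0 < t / 2 by linarith),
    small_ev (lt_min hr (show 0 < (eu y z - t) / 2 by linarith))] with δ h1 h2 h3
  obtain ⟨u, hu, huz⟩ := h2
  obtain ⟨v, hv⟩ := near_pt h3.1 y
  have hvD : v ∈ D δ := h1 v (hv.trans (h3.2.le.trans (min_le_left _ _)))
  obtain ⟨u', hu', huz'⟩ := bdry_far hvD h3.1.le z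
  refine circ (hD.even δ h3.1) h3.1.le hu hu' ?_ ?_
  · have := WD.eu_le_two (x := pt δ u) (y := z)
    linarith
  · have h4 : eu (pt δ v) y ≤ 2 * δ := WD.eu_le_two.trans (by linarith)
    have h5 : δ < (eu y z - t) / 2 := h3.2.trans_le (min_le_right _ _)
    have h6 := WD.eu_tri y (pt δ v) z
    rw [WD.eu_comm y (pt δ v)] at h6
    linarith

lemma cont_eu (z : Pl) : Continuous fun x => eu x z := WD.eu_continuous z

/-- **the limit points**: the circle of radius `t` about `z` contains the limit of vertices of `bdry (D δ)` -/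
theorem points (hΩ : IsOpen Ω) (hD : Approximates D Ω) {U : Ultrafilter ℝ} (hU : (U : Filter ℝ) ≤ 𝓝[>] 0)
    {y z : Pl} (hy : y ∈ Ω) (hz : z ∈ frontier Ω) {t : ℝ} (ht : 0 < t) (hty : t < eu y z) :
    ∃ p, eu p z = t ∧ p ∉ Ω ∧ ∃ v : ℝ → V, (∀ᶠ δ in (U : Filter ℝ), v δ ∈ bdry (D δ)) ∧
      Tendsto (fun δ => pt δ (v δ)) (U : Filter ℝ) (𝓝 p) := by
  classical
  have h0 := hU (bdry_circ hΩ hD hy hz ht hty)
  set v : ℝ → V := fun δ => if h : ∃ v ∈ bdry (D δ), |eu (pt δ v) z - t| ≤ 2 * δ then h.choose else (0, 0)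
    with hv
  have h1 : ∀ᶠ δ in (U : Filter ℝ), v δ ∈ bdry (D δ) ∧ |eu (pt δ (v δ)) z - t| ≤ 2 * δ := by
    filter_upwards [h0] with δ hδ
    have h2 : v δ = hδ.choose := by
      rw [hv]
      exact dif_pos hδ
    rw [h2]
    exact hδ.choose_spec
  have h2 : ∀ᶠ δ in (U : Filter ℝ), 0 < δ ∧ δ < 1 := hU (small_ev one_pos)
  have h3 : ∀ᶠ δ in (U : Filter ℝ), pt δ (v δ) ∈ Metric.closedBall z (t + 2) := by
    filter_upwards [h1, h2] with δ a b
    rw [Metric.mem_closedBall]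
    have h4 := WD.dist_le_eu (pt δ (v δ)) z
    have h5 := (abs_le.1 a.2).2
    linarith
  obtain ⟨p, hpm, hp⟩ := (isCompact_closedBall z (t + 2)).ultrafilter_le_nhds'
    (U.map fun δ => pt δ (v δ)) h3
  have hlim : Tendsto (fun δ => pt δ (v δ)) (U : Filter ℝ) (𝓝 p) := hp
  refine ⟨p, ?_, ?_, v, h1.mono fun δ h => h.1, hlim⟩
  · have h4 : Tendsto (fun δ => eu (pt δ (v δ)) z) (U : Filter ℝ) (𝓝 (eu p z)) :=
      ((cont_eu z).tendsto p).comp hlim
    have h5 : Tendsto (fun δ => eu (pt δ (v δ)) z) (U : Filter ℝ) (𝓝 t) := by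
      have h6 : Tendsto (fun δ : ℝ => 2 * δ) (U : Filter ℝ) (𝓝 0) := by
        have h7 : Tendsto (fun δ : ℝ => 2 * δ) (𝓝 0) (𝓝 (2 * 0)) := tendsto_id.const_mul 2
        rw [mul_zero] at h7
        exact h7.mono_left (hU.trans nhdsWithin_le_nhds)
      have h8 := squeeze_zero_norm' (a := fun δ : ℝ => 2 * δ) (f := fun δ => eu (pt δ (v δ)) z - t)
        (h1.mono fun δ h => by
          rw [Real.norm_eq_abs]
          exact h.2) h6
      have h9 := h8.add_const t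
      simpa using h9
    exact tendsto_nhds_unique h4 h5
  · intro hpΩ
    obtain ⟨r, hr, hin⟩ := in_dom hΩ hD hpΩ
    have h4 : ∀ᶠ δ in (U : Filter ℝ), dist (pt δ (v δ)) p < r / 2 :=
      (Metric.tendsto_nhds.1 hlim) (r / 2) (by linarith)
    obtain ⟨δ, ⟨h5, h6⟩, h7, h8⟩ := ((h1.and (hU hin)).and (h4.and (hU (small_ev (show 0 < r / 2 by linarith))))).exists
    obtain ⟨-, u, huv, hu⟩ := mem_bdry.1 h5.1
    refine hu (h6 u ?_)
    have h9 := adj_pt h8.1.le huv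
    have h10 := dist_triangle (pt δ u) (pt δ (v δ)) p
    linarith [h8.2]

/-! ### nets and shells -/

/-- a finite net with an explicit number of points -/
lemma net {G : Set Pl} {M a : ℝ} (hM : 0 ≤ M) (ha : 0 < a) (hG : ∀ z ∈ G, |z.1| ≤ M ∧ |z.2| ≤ M) :
    ∃ Z : Finset Pl, (∀ z ∈ Z, z ∈ G) ∧ (∀ z ∈ G, ∃ z' ∈ Z, eu z z' ≤ a) ∧
      (Z.card : ℝ) ≤ (4 * M / a + 5) ^ 2 := by
  classical
  set N : ℤ := ⌈2 * M / a⌉ with hN
  have hN0 : 0 ≤ N := Int.ceil_nonneg (by positivity)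
  set q : Pl → ℤ × ℤ := fun z => (⌊2 * z.1 / a⌋, ⌊2 * z.2 / a⌋) with hq
  set I : Finset (ℤ × ℤ) := (Finset.Icc (-N) N) ×ˢ (Finset.Icc (-N) N) with hI
  have key : ∀ x : ℝ, |x| ≤ M → ⌊2 * x / a⌋ ∈ Finset.Icc (-N) N := by
    intro x hx
    rw [abs_le] at hx
    rw [Finset.mem_Icc]
    have h1 : 2 * x / a ≤ N := by
      refine le_trans ?_ (Int.le_ceil _)
      exact div_le_div_of_nonneg_right (by linarith) ha.le
    have h2 : -(N : ℝ) ≤ 2 * x / a := by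
      have h3 : 2 * M / a ≤ N := Int.le_ceil _
      have h4 : -(2 * M / a) ≤ 2 * x / a := by
        rw [← neg_div]
        exact div_le_div_of_nonneg_right (by linarith) ha.le
      linarith
    constructor
    · rw [Int.le_floor]
      push_cast
      exact h2
    · have h5 := (Int.floor_le (2 * x / a)).trans h1
      exact_mod_cast h5
  have hqI : ∀ z ∈ G, q z ∈ I := fun z hz =>
    Finset.mem_product.2 ⟨key _ (hG z hz).1, key _ (hG z hz).2⟩
  set J := I.filter fun i => ∃ z ∈ G, q z = i with hJ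
  have hch : ∀ i ∈ J, ∃ z ∈ G, q z = i := fun i hi => (Finset.mem_filter.1 hi).2
  choose! g hg hgq using hch
  refine ⟨J.image g, ?_, ?_, ?_⟩
  · intro z hz
    obtain ⟨i, hi, rfl⟩ := Finset.mem_image.1 hz
    exact hg i hi
  · intro z hz
    have hi : q z ∈ J := Finset.mem_filter.2 ⟨hqI z hz, z, hz, rfl⟩
    refine ⟨g (q z), Finset.mem_image_of_mem g hi, ?_⟩
    have h1 := hgq (q z) hi
    have h2 : ∀ x x' : ℝ, ⌊2 * x / a⌋ = ⌊2 * x' / a⌋ → |x - x'| ≤ a / 2 := by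
      intro x x' h
      have h3 := Int.abs_sub_lt_one_of_floor_eq_floor h
      rw [← sub_div, abs_div, abs_of_pos ha, div_lt_one ha] at h3
      have h4 : 2 * x - 2 * x' = 2 * (x - x') := by ring
      rw [h4, abs_mul, abs_of_pos (by norm_num : (0 : ℝ) < 2)] at h3
      linarith
    have h3 : q (g (q z)) = q z := h1
    rw [hq] at h3
    simp only [Prod.mk.injEq] at h3
    refine WD.eu_le_two.trans ?_
    have h4 : dist z (g (q z)) ≤ a / 2 := by
      rw [Prod.dist_eq, max_le_iff, Real.dist_eq, Real.dist_eq]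
      exact ⟨h2 _ _ h3.1.symm, h2 _ _ h3.2.symm⟩
    linarith
  · have h1 : ((J.image g).card : ℝ) ≤ (I.card : ℝ) := by
      exact_mod_cast Finset.card_image_le.trans (Finset.card_filter_le _ _)
    have h2 : (I.card : ℝ) = (2 * N + 1) ^ 2 := by
      rw [hI, Finset.card_product, Int.card_Icc]
      have h3 : (((N + 1 - -N).toNat : ℕ) : ℝ) = 2 * N + 1 := by
        have h4 : (((N + 1 - -N).toNat : ℕ) : ℤ) = 2 * N + 1 := by omega
        have h5 : (((N + 1 - -N).toNat : ℕ) : ℝ) = (((N + 1 - -N).toNat : ℤ) : ℝ) := by push_cast; rfl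
        rw [h5, h4]
        push_cast
        ring
      push_cast
      rw [h3]
      ring
    have h3 : (N : ℝ) ≤ 2 * M / a + 1 := (Int.ceil_lt_add_one _).le
    have h4 : (0 : ℝ) ≤ N := by exact_mod_cast hN0
    have h5 : (2 : ℝ) * N + 1 ≤ 4 * M / a + 5 := by
      have h6 : 4 * M / a = 2 * (2 * M / a) := by ring
      rw [h6]
      linarith
    rw [h2] at h1
    exact h1.trans (pow_le_pow_left₀ (by positivity) h5 2)

/-- **the shells** -/
theorem shells (hΩ : IsOpen Ω) (hb : Bornology.IsBounded Ω) (hD : Approximates D Ω) {U : Ultrafilter ℝ}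
    (hU : (U : Filter ℝ) ≤ 𝓝[>] 0) {y : Pl} (hy : y ∈ Ω) {R : ℝ} (hR : 0 < R)
    (hyR : ∀ z ∈ frontier Ω, R ≤ eu y z) (m : ℕ) :
    ∃ C : ℝ, 0 < C ∧ ∀ n : ℕ, 1 ≤ n → ∃ P : Finset Pl, (P.card : ℝ) ≤ C * (n : ℝ) ^ 3 ∧
      (∀ p ∈ P, p ∉ Ω ∧ (∃ z ∈ frontier Ω, eu p z ≤ R) ∧ ∃ v : ℝ → V,
        (∀ᶠ δ in (U : Filter ℝ), v δ ∈ bdry (D δ)) ∧ Tendsto (fun δ => pt δ (v δ)) (U : Filter ℝ) (𝓝 p)) ∧
      ∀ τ, 3 * R * Real.exp (-n) ≤ τ → ∀ j < m, ∀ z ∈ frontier Ω, Sh P τ z (R / 8 ^ (j + 1)) := by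
  classical
  obtain ⟨M, hM0, hM⟩ : ∃ M : ℝ, 0 ≤ M ∧ ∀ z ∈ frontier Ω, |z.1| ≤ M ∧ |z.2| ≤ M := by
    obtain ⟨M, hM⟩ := (hb.closure.subset frontier_subset_closure).subset_closedBall (0 : Pl)
    refine ⟨max M 0, le_max_right _ _, fun z hz => ?_⟩
    have h1 := Metric.mem_closedBall.1 (hM hz)
    rw [Prod.dist_eq, max_le_iff, Real.dist_eq, Real.dist_eq] at h1
    simp only [Prod.fst_zero, Prod.snd_zero, sub_zero] at h1
    exact ⟨h1.1.trans (le_max_left _ _), h1.2.trans (le_max_left _ _)⟩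
  set c₁ : ℝ := 4 * M * (8 ^ m * 8) / R with hc₁
  have hc₁0 : 0 ≤ c₁ := by positivity
  refine ⟨(c₁ + 5) ^ 2 * (m + 1), by positivity, fun n hn => ?_⟩
  have hn1 : (1 : ℝ) ≤ n := by exact_mod_cast hn
  have hn0 : (0 : ℝ) < n := by linarith
  set a₀ : ℝ := R / (8 ^ m * 8 * n) with ha₀
  have ha₀0 : 0 < a₀ := by positivity
  obtain ⟨Z, hZ, hZn, hZc⟩ := net hM0 ha₀0 hM
  -- the points
  have hpt : ∀ q : Pl × ℕ × ℕ, q.1 ∈ frontier Ω → q.2.1 < m → q.2.2 < n →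
      ∃ p, eu p q.1 = (q.2.2 + 1) * (R / 8 ^ (q.2.1 + 1)) / n ∧ p ∉ Ω ∧ ∃ v : ℝ → V,
        (∀ᶠ δ in (U : Filter ℝ), v δ ∈ bdry (D δ)) ∧ Tendsto (fun δ => pt δ (v δ)) (U : Filter ℝ) (𝓝 p) := by
    rintro ⟨z, j, i⟩ hz hj hi
    simp only at hz hj hi ⊢
    refine points hΩ hD hU hy hz (by positivity) ?_
    have h1 : ((i : ℝ) + 1) ≤ n := by exact_mod_cast hi
    have h2 : ((i : ℝ) + 1) * (R / 8 ^ (j + 1)) / n ≤ R / 8 ^ (j + 1) := by
      rw [div_le_iff₀ hn0, mul_comm]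
      exact mul_le_mul_of_nonneg_left h1 (by positivity)
    have h3 : R / 8 ^ (j + 1) < R := by
      rw [div_lt_iff₀ (by positivity)]
      have h4 : (1 : ℝ) < 8 ^ (j + 1) := one_lt_pow₀ (by norm_num) (by omega)
      nlinarith
    exact (h2.trans_lt h3).trans_le (hyR z hz)
  set pf : Pl × ℕ × ℕ → Pl := fun q => if h : q.1 ∈ frontier Ω ∧ q.2.1 < m ∧ q.2.2 < n then
    (hpt q h.1 h.2.1 h.2.2).choose else 0 with hpf
  have hpf' : ∀ q : Pl × ℕ × ℕ, q.1 ∈ frontier Ω → q.2.1 < m → q.2.2 < n →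
      eu (pf q) q.1 = (q.2.2 + 1) * (R / 8 ^ (q.2.1 + 1)) / n ∧ pf q ∉ Ω ∧ ∃ v : ℝ → V,
        (∀ᶠ δ in (U : Filter ℝ), v δ ∈ bdry (D δ)) ∧
          Tendsto (fun δ => pt δ (v δ)) (U : Filter ℝ) (𝓝 (pf q)) := by
    intro q h1 h2 h3
    have h4 : pf q = (hpt q h1 h2 h3).choose := by
      rw [hpf]
      exact dif_pos ⟨h1, h2, h3⟩
    rw [h4]
    exact (hpt q h1 h2 h3).choose_spec
  set T : Finset (Pl × ℕ × ℕ) := Z ×ˢ (Finset.range m ×ˢ Finset.range n) with hT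
  have hTm : ∀ q ∈ T, q.1 ∈ frontier Ω ∧ q.2.1 < m ∧ q.2.2 < n := by
    intro q hq
    rw [hT, Finset.mem_product, Finset.mem_product, Finset.mem_range, Finset.mem_range] at hq
    exact ⟨hZ _ hq.1, hq.2.1, hq.2.2⟩
  refine ⟨T.image pf, ?_, ?_, ?_⟩
  · have h1 : ((T.image pf).card : ℝ) ≤ (Z.card : ℝ) * (m * n) := by
      have h2 : (T.image pf).card ≤ Z.card * (m * n) := by
        refine Finset.card_image_le.trans (le_of_eq ?_)
        rw [hT, Finset.card_product, Finset.card_product, Finset.card_range, Finset.card_range]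
      exact_mod_cast h2
    have h3 : 4 * M / a₀ + 5 ≤ (c₁ + 5) * n := by
      have h4 : 4 * M / a₀ = c₁ * n := by
        rw [ha₀, hc₁]
        field_simp
      rw [h4]
      nlinarith
    have h5 : (Z.card : ℝ) ≤ ((c₁ + 5) * n) ^ 2 :=
      hZc.trans (pow_le_pow_left₀ (by positivity) h3 2)
    calc ((T.image pf).card : ℝ) ≤ (Z.card : ℝ) * (m * n) := h1
      _ ≤ ((c₁ + 5) * n) ^ 2 * ((m + 1) * n) := by
          refine mul_le_mul h5 ?_ (by positivity) (by positivity)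
          nlinarith
      _ = (c₁ + 5) ^ 2 * (m + 1) * (n : ℝ) ^ 3 := by ring
  · intro p hp
    obtain ⟨q, hq, rfl⟩ := Finset.mem_image.1 hp
    obtain ⟨h1, h2, h3⟩ := hTm q hq
    obtain ⟨h4, h5, h6⟩ := hpf' q h1 h2 h3
    refine ⟨h5, ⟨q.1, h1, ?_⟩, h6⟩
    rw [h4]
    have h7 : ((q.2.2 : ℝ) + 1) ≤ n := by exact_mod_cast h3
    have h8 : ((q.2.2 : ℝ) + 1) * (R / 8 ^ (q.2.1 + 1)) / n ≤ R / 8 ^ (q.2.1 + 1) := by
      rw [div_le_iff₀ hn0, mul_comm]
      exact mul_le_mul_of_nonneg_left h7 (by positivity)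
    refine h8.trans (div_le_self hR.le ?_)
    exact one_le_pow₀ (by norm_num)
  · intro τ hτ j hj z hz
    obtain ⟨z', hz', hzz'⟩ := hZn z hz
    set b : ℝ := R / 8 ^ (j + 1) with hbdef
    have hb0 : 0 < b := by positivity
    have hτ0 : 0 < τ := lt_of_lt_of_le (by positivity) hτ
    refine ⟨b / (8 * n), n, fun i => pf (z', j, i), by positivity, fun i => ?_, fun i => ?_, ?_, ?_, ?_⟩
    · refine Finset.mem_image_of_mem pf ?_
      rw [hT, Finset.mem_product, Finset.mem_product, Finset.mem_range, Finset.mem_range]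
      exact ⟨hz', hj, i.2⟩
    · obtain ⟨h4, -, -⟩ := hpf' (z', j, i) (hZ z' hz') hj i.2
      simp only at h4
      have h5 := WD.eu_abs z' z (pf (z', j, i))
      rw [WD.eu_comm z' z, WD.eu_comm z' (pf _), WD.eu_comm z (pf _), h4] at h5
      have h6 : 8 * ((i : ℝ) + 1) * (b / (8 * n)) = (i + 1) * b / n := by
        field_simp
      have h7 : a₀ ≤ b / (8 * n) := by
        rw [ha₀, hbdef, div_div]
        refine div_le_div_of_nonneg_left hR.le (by positivity) ?_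
        have h8 : (8 : ℝ) ^ (j + 1) ≤ 8 ^ m := pow_le_pow_right₀ (by norm_num) hj
        have h9 : (0 : ℝ) < 8 * n := by positivity
        nlinarith
      rw [h6]
      rw [abs_sub_comm] at h5
      exact h5.trans (hzz'.trans h7)
    · rw [show 8 * (b / (8 * n)) * n = b by field_simp]
    · rw [show 16 * (b / (8 * (n : ℝ))) * n = 2 * b by field_simp; ring]
      linarith
    · rw [Real.log_le_iff_le_exp (by positivity), div_le_iff₀ hτ0]
      have h1 : b ≤ R := div_le_self hR.le (one_le_pow₀ (by norm_num))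
      have h2 : Real.exp n * (3 * R * Real.exp (-n)) = 3 * R := by
        have h3 : Real.exp n * Real.exp (-n) = 1 := by
          rw [← Real.exp_add, add_neg_cancel, Real.exp_zero]
        calc _ = 3 * R * (Real.exp n * Real.exp (-n)) := by ring
          _ = 3 * R := by rw [h3, mul_one]
      calc 3 * b ≤ 3 * R := by linarith
        _ = Real.exp n * (3 * R * Real.exp (-n)) := h2.symm
        _ ≤ Real.exp n * τ := mul_le_mul_of_nonneg_left hτ (Real.exp_pos _).le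

end DV.UP
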